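import Pool.Agent.S7.V.Defs

/-! S7, block V: selection of the gauge (V2). -/

set_option autoImplicit false
set_option linter.unusedSectionVars false

namespace Pool.Agent.S7

open MeasureTheory Filter Topology
open scoped ENNReal

section gau

variable {K : Type*} [MeasurableSpace K]
  {E : Type*} [NormedAddCommGroup E] [InnerProductSpace ℂ E] [FiniteDimensional ℂ E]
  {H : Type*} [NormedAddCommGroup H] [InnerProductSpace ℂ H] [CompleteSpace H]
  [SecondCountableTopology H]

/-- pointwise selection of the gauge -/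
theorem gauge_sel (G : Subgroup (E ≃ₗᵢ[ℂ] E)) (hG : Finite G) (Φ : ℕ → K → (E →L[ℂ] H))
    (hΦ : ∀ i, StronglyMeasurable (Φ i)) :
    ∃ f : K → (E ≃ₗᵢ[ℂ] E), FM f ∧ (∀ y, f y ∈ G) ∧ ∀ z z' : K,
      (∃ h ∈ G, ∀ i, Φ i z' = (Φ i z).comp (opU h)) →
        ∀ i, (Φ i z').comp (opU (f z')) = (Φ i z).comp (opU (f z)) := by
  classical
  have hsc : SecondCountableTopology (E →L[ℂ] H) := inferInstance
  obtain ⟨ι, hι⟩ := exists_measurableEmbedding_real (ℕ → (E →L[ℂ] H))
  set Val : K → G → ℝ := fun z g => ι (fun i => (Φ i z).comp (opU (g : E ≃ₗᵢ[ℂ] E))) with hVal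
  have hm : ∀ g : G, Measurable (fun z => Val z g) := by
    intro g
    refine hι.measurable.comp (measurable_pi_lambda _ fun i => ?_)
    have h1 : Continuous (fun A : E →L[ℂ] H => A.comp (opU (g : E ≃ₗᵢ[ℂ] E))) :=
      continuous_id.clm_comp continuous_const
    exact h1.measurable.comp (hΦ i).measurable
  set ms : K → Set G := fun z => {g | ∀ g', Val z g ≤ Val z g'} with hms
  have hne : ∀ z, (ms z).Nonempty := by
    intro z
    obtain ⟨g, hg⟩ := Finite.exists_min (Val z)
    exact ⟨g, hg⟩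
  have hms1 : FM ms := by
    refine ⟨Set.toFinite _, fun A => ?_⟩
    have h1 : ms ⁻¹' {A} = ⋂ g : G, {z | g ∈ A ↔ ∀ g', Val z g ≤ Val z g'} := by
      ext z
      simp only [Set.mem_preimage, Set.mem_singleton_iff, Set.mem_iInter, Set.mem_setOf_eq]
      constructor
      · rintro rfl g
        exact Iff.rfl
      · intro h
        ext g
        exact (h g).symm
    rw [h1]
    refine MeasurableSet.iInter fun g => ?_
    have h2 : MeasurableSet {z | ∀ g', Val z g ≤ Val z g'} := by
      have : {z | ∀ g', Val z g ≤ Val z g'} = ⋂ g', {z | Val z g ≤ Val z g'} := by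
        ext z; simp
      rw [this]
      exact MeasurableSet.iInter fun g' => measurableSet_le (hm g) (hm g')
    by_cases hgA : g ∈ A
    · have : {z | g ∈ A ↔ ∀ g', Val z g ≤ Val z g'} = {z | ∀ g', Val z g ≤ Val z g'} := by
        ext z; simp [hgA]
      rw [this]; exact h2
    · have : {z | g ∈ A ↔ ∀ g', Val z g ≤ Val z g'} = {z | ∀ g', Val z g ≤ Val z g'}ᶜ := by
        ext z; simp [hgA]
      rw [this]; exact h2.compl
  set pick : Set G → G := fun A => if h : A.Nonempty then h.choose else 1 with hpick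
  have hpk : ∀ z, pick (ms z) ∈ ms z := by
    intro z
    rw [hpick]
    simp only [hne z, dif_pos]
    exact (hne z).choose_spec
  refine ⟨fun z => (pick (ms z) : E ≃ₗᵢ[ℂ] E), ?_, fun z => (pick (ms z)).2, ?_⟩
  · refine ⟨?_, fun x => ?_⟩
    · refine (hms1.1.image (fun A => (pick A : E ≃ₗᵢ[ℂ] E))).subset ?_
      rintro _ ⟨z, rfl⟩
      exact ⟨ms z, ⟨z, rfl⟩, rfl⟩
    · have h : (fun z => (pick (ms z) : E ≃ₗᵢ[ℂ] E)) ⁻¹' {x} =
          ⋃ v ∈ (Set.range ms ∩ (fun A => (pick A : E ≃ₗᵢ[ℂ] E)) ⁻¹' {x}), ms ⁻¹' {v} := by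
        ext z
        simp
      rw [h]
      exact MeasurableSet.biUnion (hms1.1.subset Set.inter_subset_left).countable
        fun v _ => hms1.2 v
  · rintro z z' ⟨h, hh, hz⟩
    have hshift : ∀ g : G, Val z' g = Val z (⟨h, hh⟩ * g) := by
      intro g
      rw [hVal]
      show ι _ = ι _
      congr 1
      funext i
      rw [hz i]
      ext v
      rfl
    have h1 : Val z' (pick (ms z')) = Val z (pick (ms z)) := by
      apply le_antisymm
      · have h2 := hpk z' (⟨h, hh⟩⁻¹ * pick (ms z))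
        rw [hshift (⟨h, hh⟩⁻¹ * pick (ms z)), mul_inv_cancel_left] at h2
        exact h2
      · have h2 := hpk z (⟨h, hh⟩ * pick (ms z'))
        rw [← hshift] at h2
        exact h2
    intro i
    exact congrFun (hι.injective h1) i

end gau

end Pool.Agent.S7
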