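import Pool.Agent.S7v.V1
import Pool.Agent.S7v.Gau
import Pool.Agent.S7K.K9

/-! S7 (MP_13664e_an), block V: `gaugeA`, the non-torsion part is a gauge. -/

set_option autoImplicit false
set_option linter.unusedSectionVars false

namespace Pool.Agent.S7v

open MeasureTheory Filter Topology
open scoped ENNReal
open Pool.Agent.S7

section op

variable {E : Type*} [NormedAddCommGroup E] [InnerProductSpace ℂ E]
  {H : Type*} [NormedAddCommGroup H] [InnerProductSpace ℂ H]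

theorem opU_apply (g : E ≃ₗᵢ[ℂ] E) (v : E) : opU g v = g v := rfl

theorem opU_one : opU (1 : E ≃ₗᵢ[ℂ] E) = ContinuousLinearMap.id ℂ E := by
  ext v; rfl

theorem comp_opU_norm (A : E →L[ℂ] H) (g : E ≃ₗᵢ[ℂ] E) : ‖A.comp (opU g)‖ = ‖A‖ := by
  refine le_antisymm ?_ ?_
  · refine ContinuousLinearMap.opNorm_le_bound _ (norm_nonneg _) fun v => ?_
    rw [ContinuousLinearMap.comp_apply, opU_apply]
    refine (A.le_opNorm _).trans (le_of_eq ?_)
    rw [g.norm_map]
  · refine ContinuousLinearMap.opNorm_le_bound _ (norm_nonneg _) fun v => ?_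
    have h1 : A v = (A.comp (opU g)) (g.symm v) := by
      rw [ContinuousLinearMap.comp_apply, opU_apply, g.apply_symm_apply]
    rw [h1]
    refine ((A.comp (opU g)).le_opNorm _).trans (le_of_eq ?_)
    rw [g.symm.norm_map]

/-- the action of the group on the operators -/
noncomputable def actU (G : Subgroup (E ≃ₗᵢ[ℂ] E)) (g : G) (A : E →L[ℂ] H) : E →L[ℂ] H :=
  A.comp (opU ((g⁻¹ : G) : E ≃ₗᵢ[ℂ] E))

theorem actU_iact (G : Subgroup (E ≃ₗᵢ[ℂ] E)) : IAct (actU (H := H) G) where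
  one A := by
    ext v
    rw [actU, inv_one]
    rfl
  mul g h A := by
    ext v
    rw [actU, actU, actU, mul_inv_rev]
    rfl
  iso g A B := by
    rw [actU, actU, ← ContinuousLinearMap.sub_comp, comp_opU_norm]

end op

section main

variable {K : Type*} [CommGroup K] [TopologicalSpace K] [IsTopologicalGroup K] [CompactSpace K]
  [T2Space K] [SecondCountableTopology K] [MeasurableSpace K] [BorelSpace K]
  {u : K} {m : Measure K} [IsProbabilityMeasure m] [m.IsHaarMeasure]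
  {E : Type*} [NormedAddCommGroup E] [InnerProductSpace ℂ E] [FiniteDimensional ℂ E]
  [MeasurableSpace E] [BorelSpace E]
  {H : Type*} [NormedAddCommGroup H] [InnerProductSpace ℂ H] [CompleteSpace H]
  [SecondCountableTopology H]

theorem norm_eq_of_inner {A B A' B' : E →L[ℂ] H} {τ τ' : E ≃ₗᵢ[ℂ] E}
    (h11 : ∀ e e', inner ℂ (A e) (A e') = inner ℂ (A' (τ e)) (A' (τ e')))
    (h12 : ∀ e e', inner ℂ (A e) (B e') = inner ℂ (A' (τ e)) (B' (τ' e')))
    (h22 : ∀ e e', inner ℂ (B e) (B e') = inner ℂ (B' (τ' e)) (B' (τ' e'))) :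
    ‖A - B‖ = ‖A'.comp (opU τ) - B'.comp (opU τ')‖ := by
  refine ContinuousLinearMap.opNorm_ext _ _ fun v => ?_
  rw [sub_apply, sub_apply,
    ContinuousLinearMap.comp_apply, ContinuousLinearMap.comp_apply, opU_apply, opU_apply]
  have h : ‖A v - B v‖ ^ 2 = ‖A' (τ v) - B' (τ' v)‖ ^ 2 := by
    rw [@norm_sub_sq ℂ, @norm_sub_sq ℂ, h12]
    have e1 : ‖A v‖ ^ 2 = ‖A' (τ v)‖ ^ 2 := by
      rw [← @inner_self_eq_norm_sq ℂ, ← @inner_self_eq_norm_sq ℂ, h11]
    have e2 : ‖B v‖ ^ 2 = ‖B' (τ' v)‖ ^ 2 := by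
      rw [← @inner_self_eq_norm_sq ℂ, ← @inner_self_eq_norm_sq ℂ, h22]
    rw [e1, e2]
  exact (sq_eq_sq₀ (norm_nonneg _) (norm_nonneg _)).mp h

theorem relV_of_rel {G : Subgroup (E ≃ₗᵢ[ℂ] E)} {Φ : ℝ → K → (E →L[ℂ] H)} {q q' : ℕ}
    {τ : K → (E ≃ₗᵢ[ℂ] E)} (hτ : ∀ y, τ y ∈ G) (h : Rel m Φ q q' τ) :
    RelV m Φ (actU (H := H) G) q q' (Real.log q' - Real.log q)
      (fun y => (⟨τ y, hτ y⟩ : G)⁻¹) := by
  intro t
  obtain ⟨N, hN, hr⟩ := h t
  refine ⟨N, hN, fun x hx x' hx' => ?_⟩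
  rw [actU, actU, inv_inv, inv_inv]
  exact norm_eq_of_inner (fun e e' => hr x hx x hx e e') (fun e e' => hr x hx x' hx' e e')
    (fun e e' => hr x' hx' x' hx' e e')

theorem supV_of_sup {G : Subgroup (E ≃ₗᵢ[ℂ] E)} {Φ : ℝ → K → (E →L[ℂ] H)} (hS : Sup m G Φ) :
    SupV m Φ (actU (H := H) G) := by
  intro B hB P₀
  obtain ⟨ρ₁, hρ, h⟩ := hS 1 one_pos
  obtain ⟨q, q', τ, hq, hq', hqB, hqB', _, _, hP, h1, h2, _, hτ, hr⟩ := h B hB 1 le_rfl P₀
  refine ⟨q, q', fun y => (⟨τ y, hτ y⟩ : G)⁻¹, hq, hq', hqB, hqB', hP, ?_, h2,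
    relV_of_rel hτ hr⟩
  by_contra hcon
  push Not at hcon
  have h3 : Real.log q' ≤ Real.log q :=
    Real.log_le_log (by exact_mod_cast hq'.pos) (by exact_mod_cast hcon)
  linarith

/-- the twisted kernel is strongly measurable -/
theorem comp_sm {Ψ : K → (E →L[ℂ] H)} (hΨ : StronglyMeasurable Ψ) {f : K → (E ≃ₗᵢ[ℂ] E)}
    (hf : FM f) : StronglyMeasurable fun y => (Ψ y).comp (opU (f y)) := by
  have h1 : StronglyMeasurable fun y => opU (f y) := by
    let g : SimpleFunc K (E ≃ₗᵢ[ℂ] E) := ⟨f, hf.2, hf.1⟩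
    exact (g.map fun h => opU h).stronglyMeasurable
  have h2 : StronglyMeasurable fun y => (Ψ y, opU (f y)) := hΨ.prodMk h1
  have h3 : Continuous fun p : (E →L[ℂ] H) × (E →L[ℂ] E) => p.1.comp p.2 :=
    continuous_fst.clm_comp continuous_snd
  exact h3.comp_stronglyMeasurable h2

theorem tor1_of {Ψ : K → (E →L[ℂ] H)} {ε : ℝ} {s : Finset (PontryaginDual K)}
    {v : PontryaginDual K → (E →L[ℂ] H)} (hs : ∀ χ ∈ s, IsOfFinOrder χ)
    (h : ∫ y, ‖Ψ y - S7K.tp s v y‖ ∂m ≤ ε) :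
    ∃ (n : ℕ) (χ : Fin n → PontryaginDual K) (v : Fin n → (E →L[ℂ] H)), (∀ i, Tor (χ i)) ∧
      ∫ y, ‖Ψ y - ∑ i, ((χ i y : Circle) : ℂ) • v i‖ ∂m ≤ ε := by
  refine ⟨s.card, fun i => (s.equivFin.symm i : PontryaginDual K),
    fun i => v (s.equivFin.symm i), fun i => (tor_iff _).mpr (hs _ (s.equivFin.symm i).2), ?_⟩
  refine le_trans (le_of_eq ?_) h
  refine integral_congr_ae (Eventually.of_forall fun y => ?_)
  have e : ∑ i, (((s.equivFin.symm i : PontryaginDual K) y : Circle) : ℂ) •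
      v (s.equivFin.symm i) = S7K.tp s v y := by
    rw [S7K.tp, ← Finset.sum_coe_sort s]
    exact Equiv.sum_comp s.equivFin.symm
      (fun χ : s => (((χ : PontryaginDual K) y : Circle) : ℂ) • v χ)
  show ‖Ψ y - _‖ = ‖Ψ y - _‖
  rw [e]

theorem kd_toK {K : Type*} [CommGroup K] [TopologicalSpace K] {u : K} (h : KD K u) :
    S7K.KD K u := ⟨h.sep, h.dense, h.div, h.roots⟩

end main

end Pool.Agent.S7v

namespace Pool.Agent.S7

open MeasureTheory Filter Topology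
open scoped ENNReal
open Pool.Agent.S7v

variable {K : Type*} [CommGroup K] [TopologicalSpace K] [IsTopologicalGroup K] [CompactSpace K]
  [T2Space K] [SecondCountableTopology K] [MeasurableSpace K] [BorelSpace K]
  {u : K} {m : Measure K} [IsProbabilityMeasure m] [m.IsHaarMeasure]
  {E : Type*} [NormedAddCommGroup E] [InnerProductSpace ℂ E] [FiniteDimensional ℂ E]
  [MeasurableSpace E] [BorelSpace E]
  {H : Type*} [NormedAddCommGroup H] [InnerProductSpace ℂ H] [CompleteSpace H]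
  [SecondCountableTopology H]

/-- V, abstract: the gauge -/
theorem gaugeA (hK : KD K u) {G : Subgroup (E ≃ₗᵢ[ℂ] E)} (hG : Finite G) {C : ℝ}
    {Φ : ℝ → K → (E →L[ℂ] H)} (hΦ : Fam m C Φ) (hS : Sup m G Φ) :
    ∃ f : K → (E ≃ₗᵢ[ℂ] E), FM f ∧ (∀ y, f y ∈ G) ∧
      ∀ t, Tor1 m (fun y => (Φ t y).comp (opU (f y))) := by
  classical
  have : Fintype G := Fintype.ofFinite G
  have hμp : IsProbabilityMeasure (S7K.muW K) := S7K.isProbabilityMeasure_muW (kd_toK hK)
  set s : ℕ → ℝ := TopologicalSpace.denseSeq ℝ with hs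
  have hV1 : ∀ᵐ p ∂((S7K.muW K).prod m), ∃ g : G, ∀ n,
      Φ (s n) (p.2 * p.1) = actU (H := H) G g (Φ (s n) p.2) :=
    V1_count hK (actU_iact G) hΦ
      (fun χ hχ => S7K.int_muW_tor (kd_toK hK) ((tor_iff χ).mp hχ))
      (fun χ hχ => S7K.int_muW (kd_toK hK) fun h => hχ ((tor_iff χ).mpr h))
      (fun O hO h1 => S7K.muW_open_pos (kd_toK hK) hO h1) (supV_of_sup hS) s
  obtain ⟨f, hf, hfG, hsel⟩ := gauge_sel G hG (fun n => Φ (s n)) fun n => hΦ.sm (s n)
  refine ⟨f, hf, hfG, fun t ε hε => ?_⟩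
  have hinv : ∀ n, ∀ᵐ p : K × K ∂(m.prod (S7K.muW K)),
      (Φ (s n) (p.1 * p.2)).comp (opU (f (p.1 * p.2))) =
        (Φ (s n) p.1).comp (opU (f p.1)) := by
    intro n
    have hsw : MeasurePreserving (Prod.swap : K × K → K × K) (m.prod (S7K.muW K))
        ((S7K.muW K).prod m) := Measure.measurePreserving_swap
    have h := hsw.quasiMeasurePreserving.ae hV1
    filter_upwards [h] with p hp
    obtain ⟨g, hg⟩ := hp
    exact hsel p.1 (p.1 * p.2) ⟨((g⁻¹ : G) : E ≃ₗᵢ[ℂ] E), (g⁻¹).2, fun i => hg i⟩ n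
  -- a parameter of the dense sequence near `t`
  obtain ⟨n, hn⟩ : ∃ n, dist t (s n) < (ε / 2) ^ 2 / 2 :=
    (TopologicalSpace.denseRange_denseSeq ℝ).exists_dist_lt t (by positivity)
  have hsm : ∀ r, StronglyMeasurable fun y => (Φ r y).comp (opU (f y)) := fun r =>
    comp_sm (hΦ.sm r) hf
  have hint : ∀ r, Integrable (fun y => (Φ r y).comp (opU (f y))) m := fun r =>
    sm_bdd_int (hsm r) (C := C) fun y => by
      rw [comp_opU_norm]; exact hΦ.bdd r y
  obtain ⟨σ, v, hσ, hv⟩ := S7K.tor_approx_L1 m (kd_toK hK) (hint (s n)) (hinv n)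
    (half_pos hε)
  refine tor1_of (v := v) hσ ?_
  have hcont : Continuous (S7K.tp σ v) := by
    unfold S7K.tp
    exact continuous_finsetSum _ fun χ _ => (S7K.continuous_ch χ).smul continuous_const
  have hi1 : Integrable (fun y => ‖(Φ (s n) y).comp (opU (f y)) - S7K.tp σ v y‖) m :=
    ((hint (s n)).sub (cont_int hcont)).norm
  have hi2 : Integrable (fun y => ‖(Φ (s n) y).comp (opU (f y)) - S7K.tp σ v y‖ + ε / 2) m :=
    hi1.add (integrable_const _)
  have hle : ∀ᵐ y ∂m, ‖(Φ t y).comp (opU (f y)) - S7K.tp σ v y‖ ≤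
      ‖(Φ (s n) y).comp (opU (f y)) - S7K.tp σ v y‖ + ε / 2 := by
    filter_upwards [hΦ.cont t (s n)] with y hy
    have h1 : ‖(Φ t y).comp (opU (f y)) - (Φ (s n) y).comp (opU (f y))‖ ≤ ε / 2 := by
      rw [← ContinuousLinearMap.sub_comp, comp_opU_norm]
      refine hy.trans ?_
      calc Real.sqrt (2 * |t - s n|) ≤ Real.sqrt ((ε / 2) ^ 2) := by
            apply Real.sqrt_le_sqrt
            rw [Real.dist_eq] at hn
            linarith
        _ = ε / 2 := Real.sqrt_sq (by positivity)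
    have h2 : (Φ t y).comp (opU (f y)) - S7K.tp σ v y =
        ((Φ (s n) y).comp (opU (f y)) - S7K.tp σ v y) +
        ((Φ t y).comp (opU (f y)) - (Φ (s n) y).comp (opU (f y))) := by abel
    rw [h2]
    exact (norm_add_le _ _).trans (add_le_add le_rfl h1)
  refine (integral_mono_of_nonneg (Eventually.of_forall fun y => norm_nonneg _) hi2 hle).trans ?_
  rw [integral_add hi1 (integrable_const _)]
  simp only [integral_const, probReal_univ, one_smul]
  linarith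

end Pool.Agent.S7
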