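import Pool.Agent.S7.Defs

/-! S7 (MP_13664e_an), block V: trigonometric polynomials are dense in `C(K³)` and in `L¹(m; V)`. -/

set_option autoImplicit false
set_option linter.unusedSectionVars false

namespace Pool.Agent.S7v

open MeasureTheory Filter Topology
open scoped ENNReal
open Pool.Agent.S7

section tri

variable {K : Type*} [CommGroup K] [TopologicalSpace K] [IsTopologicalGroup K] [CompactSpace K]
  [T2Space K]

omit [T2Space K] in
theorem chr_cont (χ : PontryaginDual K) : Continuous fun x : K => ((χ x : Circle) : ℂ) :=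
  continuous_subtype_val.comp (map_continuous χ)

/-- products of three characters -/
noncomputable def tri (χ : PontryaginDual K × PontryaginDual K × PontryaginDual K) :
    C(K × K × K, ℂ) where
  toFun p := ((χ.1 p.1 : Circle) : ℂ) * ((χ.2.1 p.2.1 : Circle) : ℂ) * ((χ.2.2 p.2.2 : Circle) : ℂ)
  continuous_toFun := by
    have h1 := (chr_cont χ.1).comp (continuous_fst (X := K) (Y := K × K))
    have h2 := (chr_cont χ.2.1).comp (continuous_fst.comp (continuous_snd (X := K) (Y := K × K)))
    have h3 := (chr_cont χ.2.2).comp (continuous_snd.comp (continuous_snd (X := K) (Y := K × K)))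
    exact (h1.mul h2).mul h3

omit [T2Space K] in
theorem tri_apply (χ : PontryaginDual K × PontryaginDual K × PontryaginDual K) (p : K × K × K) :
    tri χ p = ((χ.1 p.1 : Circle) : ℂ) * ((χ.2.1 p.2.1 : Circle) : ℂ) *
      ((χ.2.2 p.2.2 : Circle) : ℂ) := rfl

omit [T2Space K] in
theorem mul_chr (χ ψ : PontryaginDual K) (x : K) : (χ * ψ) x = χ x * ψ x := rfl

omit [T2Space K] in
theorem inv_chr (χ : PontryaginDual K) (x : K) : (χ⁻¹) x = (χ x)⁻¹ := rfl

omit [T2Space K] in
theorem one_chr (x : K) : (1 : PontryaginDual K) x = 1 := rfl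

omit [T2Space K] in
theorem tri_mul (χ ψ : PontryaginDual K × PontryaginDual K × PontryaginDual K) :
    tri χ * tri ψ = tri (χ * ψ) := by
  ext p
  simp only [ContinuousMap.mul_apply, tri_apply, Prod.fst_mul, Prod.snd_mul, mul_chr,
    Circle.coe_mul]
  ring

omit [T2Space K] in
theorem tri_one : tri (1 : PontryaginDual K × PontryaginDual K × PontryaginDual K) = 1 := by
  ext p
  simp only [tri_apply, Prod.fst_one, Prod.snd_one, one_chr, Circle.coe_one, mul_one,
    ContinuousMap.one_apply]

omit [T2Space K] in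
theorem tri_star (χ : PontryaginDual K × PontryaginDual K × PontryaginDual K) :
    star (tri χ) = tri χ⁻¹ := by
  ext p
  simp only [ContinuousMap.star_apply, tri_apply, Prod.fst_inv, Prod.snd_inv, inv_chr,
    Circle.coe_inv_eq_conj, star_mul', RCLike.star_def]

/-- the star algebra spanned by products of characters -/
noncomputable def triAlg (K : Type*) [CommGroup K] [TopologicalSpace K] [IsTopologicalGroup K]
    [CompactSpace K] : StarSubalgebra ℂ C(K × K × K, ℂ) where
  carrier := Submodule.span ℂ (Set.range (tri (K := K)))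
  mul_mem' := by
    intro a b ha hb
    refine Submodule.span_induction₂
      (p := fun x y _ _ => x * y ∈ Submodule.span ℂ (Set.range (tri (K := K)))) ?_ ?_ ?_ ?_ ?_ ?_ ?_
      ha hb
    · rintro x y ⟨χ, rfl⟩ ⟨ψ, rfl⟩
      exact Submodule.subset_span ⟨χ * ψ, (tri_mul χ ψ).symm⟩
    · intro y _; simp
    · intro y _; simp
    · intro x y z _ _ _ h1 h2
      rw [add_mul]; exact Submodule.add_mem _ h1 h2
    · intro x y z _ _ _ h1 h2
      rw [mul_add]; exact Submodule.add_mem _ h1 h2
    · intro r x y _ _ h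
      rw [smul_mul_assoc]; exact Submodule.smul_mem _ _ h
    · intro r x y _ _ h
      rw [mul_smul_comm]; exact Submodule.smul_mem _ _ h
  one_mem' := Submodule.subset_span ⟨1, tri_one⟩
  add_mem' := fun ha hb => Submodule.add_mem _ ha hb
  zero_mem' := Submodule.zero_mem _
  algebraMap_mem' := by
    intro r
    rw [Algebra.algebraMap_eq_smul_one, ← tri_one]
    exact Submodule.smul_mem _ _ (Submodule.subset_span ⟨1, rfl⟩)
  star_mem' := by
    intro a ha
    refine Submodule.span_induction
      (p := fun x _ => star x ∈ Submodule.span ℂ (Set.range (tri (K := K)))) ?_ ?_ ?_ ?_ ha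
    · rintro x ⟨χ, rfl⟩
      exact Submodule.subset_span ⟨χ⁻¹, (tri_star χ).symm⟩
    · simp
    · intro x y _ _ h1 h2
      rw [star_add]; exact Submodule.add_mem _ h1 h2
    · intro r x _ h
      rw [star_smul]; exact Submodule.smul_mem _ _ h

omit [T2Space K] in
theorem mem_triAlg (f : C(K × K × K, ℂ)) :
    f ∈ triAlg K ↔ f ∈ Submodule.span ℂ (Set.range (tri (K := K))) := Iff.rfl

omit [T2Space K] in
theorem sep_pt {x y : K} (hsep : ∀ x : K, (∀ χ : PontryaginDual K, χ x = 1) → x = 1)
    (hxy : x ≠ y) : ∃ χ : PontryaginDual K, ((χ x : Circle) : ℂ) ≠ ((χ y : Circle) : ℂ) := by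
  by_contra hcon
  push Not at hcon
  apply hxy
  have : x * y⁻¹ = 1 := by
    refine hsep _ fun χ => ?_
    have h1 : χ x = χ y := Subtype.ext (hcon χ)
    have h2 : χ (x * y⁻¹) = χ x * (χ y)⁻¹ := by
      rw [map_mul, map_inv]
    rw [h2, h1, mul_inv_cancel]
  exact mul_inv_eq_one.mp this

/-- Stone-Weierstrass -/
theorem tri_dense (hsep : ∀ x : K, (∀ χ : PontryaginDual K, χ x = 1) → x = 1)
    (F : C(K × K × K, ℂ)) {ε : ℝ} (hε : 0 < ε) :
    ∃ P ∈ Submodule.span ℂ (Set.range (tri (K := K))), ∀ p, ‖F p - P p‖ ≤ ε := by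
  have hA : (triAlg K).SeparatesPoints := by
    rintro ⟨a, b, c⟩ ⟨a', b', c'⟩ hne
    by_cases ha : a = a'
    · by_cases hb : b = b'
      · have hc : c ≠ c' := fun hc => hne (by rw [ha, hb, hc])
        obtain ⟨χ, hχ⟩ := sep_pt hsep hc
        refine ⟨_, ⟨tri (1, 1, χ), Submodule.subset_span ⟨_, rfl⟩, rfl⟩, ?_⟩
        simpa [tri_apply, one_chr] using hχ
      · obtain ⟨χ, hχ⟩ := sep_pt hsep hb
        refine ⟨_, ⟨tri (1, χ, 1), Submodule.subset_span ⟨_, rfl⟩, rfl⟩, ?_⟩
        simpa [tri_apply, one_chr] using hχ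
    · obtain ⟨χ, hχ⟩ := sep_pt hsep ha
      refine ⟨_, ⟨tri (χ, 1, 1), Submodule.subset_span ⟨_, rfl⟩, rfl⟩, ?_⟩
      simpa [tri_apply, one_chr] using hχ
  have hd := ContinuousMap.starSubalgebra_topologicalClosure_eq_top_of_separatesPoints
    (triAlg K) hA
  have hF : F ∈ (triAlg K).topologicalClosure := by rw [hd]; exact StarSubalgebra.mem_top
  have hF' : F ∈ closure ((triAlg K : Set C(K × K × K, ℂ))) := hF
  obtain ⟨P, hP, hd⟩ := Metric.mem_closure_iff.mp hF' ε hε
  refine ⟨P, hP, fun p => ?_⟩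
  rw [← dist_eq_norm]
  exact (ContinuousMap.dist_apply_le_dist p).trans hd.le

end tri

end Pool.Agent.S7v
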