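import Pool.Agent.S7v.Dense

/-! S7 (MP_13664e_an), block V: the limit law of `(v^q, v^q', x^q')`. -/

set_option autoImplicit false
set_option linter.unusedSectionVars false

namespace Pool.Agent.S7v

open MeasureTheory Filter Topology
open scoped ENNReal
open Pool.Agent.S7

section lim

variable {K : Type*} [CommGroup K] [TopologicalSpace K] [IsTopologicalGroup K] [CompactSpace K]
  [T2Space K] [MeasurableSpace K] [BorelSpace K] {m μ : Measure K} [IsProbabilityMeasure m]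
  [m.IsHaarMeasure] [IsProbabilityMeasure μ]

theorem tor_iff (χ : PontryaginDual K) : Tor χ ↔ IsOfFinOrder χ := by
  rw [isOfFinOrder_iff_pow_eq_one]; rfl

theorem chr_int0 (χ : PontryaginDual K) (hχ : χ ≠ 1) : ∫ y, ((χ y : Circle) : ℂ) ∂m = 0 := by
  obtain ⟨a, ha⟩ : ∃ a, χ a ≠ 1 := by
    by_contra hcon
    push Not at hcon
    exact hχ (PontryaginDual.ext fun a => by rw [hcon a]; rfl)
  have h1 : ∫ y, ((χ (a * y) : Circle) : ℂ) ∂m = ∫ y, ((χ y : Circle) : ℂ) ∂m :=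
    integral_mul_left_eq_self (fun y => ((χ y : Circle) : ℂ)) a
  have h2 : ∫ y, ((χ (a * y) : Circle) : ℂ) ∂m = ((χ a : Circle) : ℂ) * ∫ y, ((χ y : Circle) : ℂ) ∂m := by
    rw [← integral_const_mul]
    refine integral_congr_ae (Eventually.of_forall fun y => ?_)
    show ((χ (a * y) : Circle) : ℂ) = _
    rw [map_mul, Circle.coe_mul]
  rw [h2] at h1
  have h3 : (((χ a : Circle) : ℂ) - 1) * ∫ y, ((χ y : Circle) : ℂ) ∂m = 0 := by
    rw [sub_mul, h1, one_mul, sub_self]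
  rcases mul_eq_zero.mp h3 with h | h
  · exact absurd (Subtype.ext (sub_eq_zero.mp h) : χ a = 1) ha
  · exact h

theorem pow_chr (χ : PontryaginDual K) (n : ℕ) (x : K) : (χ ^ n) x = χ (x ^ n) := by
  induction n with
  | zero => simp [one_chr]
  | succ n ih => rw [pow_succ, mul_chr, ih, pow_succ, map_mul]

theorem one_int (μ : Measure K) [IsProbabilityMeasure μ] :
    ∫ y, (((1 : PontryaginDual K) y : Circle) : ℂ) ∂μ = 1 := by
  have : (fun y : K => (((1 : PontryaginDual K) y : Circle) : ℂ)) = fun _ => 1 := by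
    funext y; simp [one_chr]
  rw [this]; simp

/-- `χ^p = 1` for infinitely many primes forces `χ = 1` -/
theorem lim_one (r : ℕ → ℕ) (hr : ∀ n, (r n).Prime) (hm : StrictMono r) (χ : PontryaginDual K) :
    ∀ᶠ n in atTop, ∫ x, ((χ (x ^ r n) : Circle) : ℂ) ∂m = ∫ x, ((χ x : Circle) : ℂ) ∂m := by
  by_cases hχ : χ = 1
  · refine Eventually.of_forall fun n => ?_
    subst hχ
    simp
  · have h0 : ∀ n, χ ^ r n ≠ 1 → ∫ x, ((χ (x ^ r n) : Circle) : ℂ) ∂m = ∫ x, ((χ x : Circle) : ℂ) ∂m := by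
      intro n hn
      rw [chr_int0 χ hχ, ← chr_int0 (m := m) _ hn]
      simp only [pow_chr]
    by_cases hex : ∃ n, χ ^ r n = 1
    · obtain ⟨n, hn⟩ := hex
      filter_upwards [eventually_gt_atTop n] with k hk
      refine h0 k fun hk1 => hχ ?_
      have hne : r n ≠ r k := (hm hk).ne
      have hco : Nat.Coprime (r n) (r k) := (Nat.coprime_primes (hr n) (hr k)).mpr hne
      have h3 : orderOf χ ∣ Nat.gcd (r n) (r k) :=
        Nat.dvd_gcd (orderOf_dvd_of_pow_eq_one hn) (orderOf_dvd_of_pow_eq_one hk1)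
      rw [hco.gcd_eq_one, Nat.dvd_one, orderOf_eq_one_iff] at h3
      exact h3
    · push Not at hex
      exact Eventually.of_forall fun n => h0 n (hex n)

theorem tor_of_pow {χ : PontryaginDual K} {n : ℕ} (hn : n ≠ 0) (h : Tor (χ ^ n)) : Tor χ := by
  rw [tor_iff] at h ⊢
  exact h.of_pow hn

theorem tor_mul {χ ψ : PontryaginDual K} (h : Tor χ) (h' : Tor ψ) : Tor (χ * ψ) := by
  rw [tor_iff] at *
  exact h.mul h'

theorem tor_inv {χ : PontryaginDual K} (h : Tor χ) : Tor χ⁻¹ := by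
  rw [tor_iff] at *
  exact h.inv

theorem tor_pow {χ : PontryaginDual K} (h : Tor χ) (n : ℕ) : Tor (χ ^ n) := by
  rw [tor_iff] at *
  exact h.pow

/-- at most one pair of primes -/
theorem tor_pair {χ ψ : PontryaginDual K} {a b c d : ℕ} (ha : a.Prime) (hb : b.Prime)
    (hc : c.Prime) (hd : d.Prime) (hab : a ≠ b) (hac : a ≠ c) (h1 : Tor (χ ^ a * ψ ^ b))
    (h2 : Tor (χ ^ c * ψ ^ d)) : Tor χ := by
  -- (χ^a ψ^b)^d / (χ^c ψ^d)^b = χ^(a d) / χ^(c b)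
  have h3 : Tor ((χ ^ a * ψ ^ b) ^ d * ((χ ^ c * ψ ^ d) ^ b)⁻¹) :=
    tor_mul (tor_pow h1 d) (tor_inv (tor_pow h2 b))
  have h4 : (χ ^ a * ψ ^ b) ^ d * ((χ ^ c * ψ ^ d) ^ b)⁻¹ = χ ^ (a * d) * (χ ^ (c * b))⁻¹ := by
    rw [mul_pow, mul_pow, ← pow_mul, ← pow_mul, ← pow_mul, ← pow_mul, mul_comm d b, mul_inv,
      mul_mul_mul_comm, mul_inv_cancel, mul_one]
  rw [h4] at h3
  have hne : a * d ≠ c * b := by
    intro h
    have hd : a ∣ c * b := ⟨d, h.symm⟩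
    rcases (Nat.Prime.dvd_mul ha).mp hd with h | h
    · exact hac ((Nat.prime_dvd_prime_iff_eq ha hc).mp h)
    · exact hab ((Nat.prime_dvd_prime_iff_eq ha hb).mp h)
  rcases lt_or_gt_of_ne hne with h | h
  · have h5 : χ ^ (a * d) * (χ ^ (c * b))⁻¹ = (χ ^ (c * b - a * d))⁻¹ := by
      have h6 : χ ^ (c * b) = χ ^ (c * b - a * d) * χ ^ (a * d) := by
        rw [← pow_add, Nat.sub_add_cancel h.le]
      rw [h6, mul_inv, mul_comm (χ ^ (c * b - a * d))⁻¹, ← mul_assoc, mul_inv_cancel, one_mul]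
    rw [h5] at h3
    have h7 := tor_inv h3
    rw [inv_inv] at h7
    exact tor_of_pow (Nat.sub_ne_zero_of_lt h) h7
  · have h5 : χ ^ (a * d) * (χ ^ (c * b))⁻¹ = χ ^ (a * d - c * b) := by
      have h6 : χ ^ (a * d) = χ ^ (a * d - c * b) * χ ^ (c * b) := by
        rw [← pow_add, Nat.sub_add_cancel h.le]
      rw [h6, mul_assoc, mul_inv_cancel, mul_one]
    rw [h5] at h3
    exact tor_of_pow (Nat.sub_ne_zero_of_lt h) h3

theorem lim_two (h1 : ∀ χ : PontryaginDual K, Tor χ → ∫ y, ((χ y : Circle) : ℂ) ∂μ = 1)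
    (h0 : ∀ χ : PontryaginDual K, ¬ Tor χ → ∫ y, ((χ y : Circle) : ℂ) ∂μ = 0)
    (q q' : ℕ → ℕ) (hq : ∀ n, (q n).Prime) (hq' : ∀ n, (q' n).Prime) (hlt : ∀ n, q n < q' n)
    (hm : StrictMono q) (χ ψ : PontryaginDual K) :
    ∀ᶠ n in atTop, ∫ v, ((χ (v ^ q n) : Circle) : ℂ) * ((ψ (v ^ q' n) : Circle) : ℂ) ∂μ =
      (∫ v, ((χ v : Circle) : ℂ) ∂μ) * ∫ v, ((ψ v : Circle) : ℂ) ∂μ := by
  have hI : ∀ n, ∫ v, ((χ (v ^ q n) : Circle) : ℂ) * ((ψ (v ^ q' n) : Circle) : ℂ) ∂μ =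
      ∫ v, (((χ ^ q n * ψ ^ q' n) v : Circle) : ℂ) ∂μ := by
    intro n
    refine integral_congr_ae (Eventually.of_forall fun v => ?_)
    show _ = (((χ ^ q n * ψ ^ q' n) v : Circle) : ℂ)
    rw [mul_chr, pow_chr, pow_chr, Circle.coe_mul]
  by_cases hχ : Tor χ
  · by_cases hψ : Tor ψ
    · refine Eventually.of_forall fun n => ?_
      rw [hI, h1 _ (tor_mul (tor_pow hχ _) (tor_pow hψ _)), h1 _ hχ, h1 _ hψ, one_mul]
    · refine Eventually.of_forall fun n => ?_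
      rw [hI, h0 _ hψ, mul_zero]
      refine h0 _ fun ht => hψ ?_
      have h3 : Tor ((χ ^ q n)⁻¹ * (χ ^ q n * ψ ^ q' n)) := tor_mul (tor_inv (tor_pow hχ _)) ht
      rw [← mul_assoc, inv_mul_cancel, one_mul] at h3
      exact tor_of_pow (hq' n).ne_zero h3
  · by_cases hψ : Tor ψ
    · refine Eventually.of_forall fun n => ?_
      rw [hI, h0 _ hχ, zero_mul]
      refine h0 _ fun ht => hχ ?_
      have h3 : Tor ((χ ^ q n * ψ ^ q' n) * (ψ ^ q' n)⁻¹) := tor_mul ht (tor_inv (tor_pow hψ _))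
      rw [mul_assoc, mul_inv_cancel, mul_one] at h3
      exact tor_of_pow (hq n).ne_zero h3
    · by_cases hex : ∃ n, Tor (χ ^ q n * ψ ^ q' n)
      · obtain ⟨n, hn⟩ := hex
        filter_upwards [eventually_gt_atTop n] with k hk
        rw [hI, h0 _ hχ, zero_mul]
        refine h0 _ fun ht => hχ ?_
        exact tor_pair (hq n) (hq' n) (hq k) (hq' k) (hlt n).ne (hm hk).ne hn ht
      · push Not at hex
        refine Eventually.of_forall fun n => ?_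
        rw [hI, h0 _ hχ, zero_mul]
        exact h0 _ (hex n)

variable [SecondCountableTopology K]

theorem cont_int {X : Type*} [TopologicalSpace X] [CompactSpace X] [MeasurableSpace X]
    [BorelSpace X] {V : Type*} [NormedAddCommGroup V] [SecondCountableTopologyEither X V]
    {ν : Measure X} [IsFiniteMeasure ν] {f : X → V} (hf : Continuous f) : Integrable f ν := by
  obtain ⟨C, hC⟩ := (isCompact_range hf).isBounded.exists_norm_le
  exact Integrable.of_bound hf.aestronglyMeasurable C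
    (Eventually.of_forall fun x => hC _ ⟨x, rfl⟩)

theorem lim_tri (h1 : ∀ χ : PontryaginDual K, Tor χ → ∫ y, ((χ y : Circle) : ℂ) ∂μ = 1)
    (h0 : ∀ χ : PontryaginDual K, ¬ Tor χ → ∫ y, ((χ y : Circle) : ℂ) ∂μ = 0)
    (q q' : ℕ → ℕ) (hq : ∀ n, (q n).Prime) (hq' : ∀ n, (q' n).Prime) (hlt : ∀ n, q n < q' n)
    (hm : StrictMono q) (hm' : StrictMono q') (P : C(K × K × K, ℂ))
    (hP : P ∈ Submodule.span ℂ (Set.range (tri (K := K)))) :
    Tendsto (fun n => ∫ p : K × K, P (p.1 ^ q n, p.1 ^ q' n, p.2 ^ q' n) ∂(μ.prod m)) atTop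
      (𝓝 (∫ p, P p ∂(μ.prod (μ.prod m)))) := by
  have hcn : ∀ n, Continuous fun p : K × K => (p.1 ^ q n, p.1 ^ q' n, p.2 ^ q' n) := by
    intro n; fun_prop
  refine Submodule.span_induction (p := fun P _ =>
    Tendsto (fun n => ∫ p : K × K, P (p.1 ^ q n, p.1 ^ q' n, p.2 ^ q' n) ∂(μ.prod m)) atTop
      (𝓝 (∫ p, P p ∂(μ.prod (μ.prod m))))) ?_ ?_ ?_ ?_ hP
  · rintro x ⟨χ, rfl⟩
    have hA : ∫ p, tri χ p ∂(μ.prod (μ.prod m)) = (∫ v, ((χ.1 v : Circle) : ℂ) ∂μ) *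
        ((∫ v, ((χ.2.1 v : Circle) : ℂ) ∂μ) * ∫ v, ((χ.2.2 v : Circle) : ℂ) ∂m) := by
      rw [← integral_prod_mul (μ := μ) (ν := m) (fun v => ((χ.2.1 v : Circle) : ℂ))
        (fun v => ((χ.2.2 v : Circle) : ℂ)), ← integral_prod_mul (μ := μ) (ν := μ.prod m)
        (fun v => ((χ.1 v : Circle) : ℂ))
        (fun p : K × K => ((χ.2.1 p.1 : Circle) : ℂ) * ((χ.2.2 p.2 : Circle) : ℂ))]
      refine integral_congr_ae (Eventually.of_forall fun p => ?_)
      show tri χ p = _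
      rw [tri_apply, mul_assoc]
    have hB : ∀ n, ∫ p : K × K, tri χ (p.1 ^ q n, p.1 ^ q' n, p.2 ^ q' n) ∂(μ.prod m) =
        (∫ v, ((χ.1 (v ^ q n) : Circle) : ℂ) * ((χ.2.1 (v ^ q' n) : Circle) : ℂ) ∂μ) *
          ∫ x, ((χ.2.2 (x ^ q' n) : Circle) : ℂ) ∂m := by
      intro n
      rw [← integral_prod_mul (μ := μ) (ν := m)
        (fun v => ((χ.1 (v ^ q n) : Circle) : ℂ) * ((χ.2.1 (v ^ q' n) : Circle) : ℂ))
        (fun x => ((χ.2.2 (x ^ q' n) : Circle) : ℂ))]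
      rfl
    refine tendsto_const_nhds.congr' ?_
    filter_upwards [lim_two h1 h0 q q' hq hq' hlt hm χ.1 χ.2.1,
      lim_one (m := m) q' hq' hm' χ.2.2] with n h2 h3
    rw [hA, hB, h2, h3, mul_assoc]
  · simp
  · intro x y _ _ hx hy
    have e1 : ∀ n, ∫ p : K × K, (x + y) (p.1 ^ q n, p.1 ^ q' n, p.2 ^ q' n) ∂(μ.prod m) =
        (∫ p : K × K, x (p.1 ^ q n, p.1 ^ q' n, p.2 ^ q' n) ∂(μ.prod m)) +
          ∫ p : K × K, y (p.1 ^ q n, p.1 ^ q' n, p.2 ^ q' n) ∂(μ.prod m) := fun n =>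
      integral_add (cont_int (x.continuous.comp (hcn n))) (cont_int (y.continuous.comp (hcn n)))
    have e2 : ∫ p, (x + y) p ∂(μ.prod (μ.prod m)) =
        (∫ p, x p ∂(μ.prod (μ.prod m))) + ∫ p, y p ∂(μ.prod (μ.prod m)) :=
      integral_add (cont_int x.continuous) (cont_int y.continuous)
    simp only [e1, e2]
    exact hx.add hy
  · intro r x _ hx
    have e1 : ∀ n, ∫ p : K × K, (r • x) (p.1 ^ q n, p.1 ^ q' n, p.2 ^ q' n) ∂(μ.prod m) =
        r * ∫ p : K × K, x (p.1 ^ q n, p.1 ^ q' n, p.2 ^ q' n) ∂(μ.prod m) := fun n =>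
      integral_const_mul r _
    have e2 : ∫ p, (r • x) p ∂(μ.prod (μ.prod m)) = r * ∫ p, x p ∂(μ.prod (μ.prod m)) :=
      integral_const_mul r _
    simp only [e1, e2]
    exact hx.const_mul r

/-- the limit law -/
theorem lim_cont (hsep : ∀ x : K, (∀ χ : PontryaginDual K, χ x = 1) → x = 1)
    (h1 : ∀ χ : PontryaginDual K, Tor χ → ∫ y, ((χ y : Circle) : ℂ) ∂μ = 1)
    (h0 : ∀ χ : PontryaginDual K, ¬ Tor χ → ∫ y, ((χ y : Circle) : ℂ) ∂μ = 0)
    (q q' : ℕ → ℕ) (hq : ∀ n, (q n).Prime) (hq' : ∀ n, (q' n).Prime) (hlt : ∀ n, q n < q' n)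
    (hm : StrictMono q) (hm' : StrictMono q') (F : C(K × K × K, ℂ)) :
    Tendsto (fun n => ∫ p : K × K, F (p.1 ^ q n, p.1 ^ q' n, p.2 ^ q' n) ∂(μ.prod m)) atTop
      (𝓝 (∫ p, F p ∂(μ.prod (μ.prod m)))) := by
  have hcn : ∀ n, Continuous fun p : K × K => (p.1 ^ q n, p.1 ^ q' n, p.2 ^ q' n) := by
    intro n; fun_prop
  rw [Metric.tendsto_atTop]
  intro ε hε
  obtain ⟨P, hP, hPF⟩ := tri_dense hsep F (ε := ε / 4) (by positivity)
  obtain ⟨N, hN⟩ := Metric.tendsto_atTop.mp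
    (lim_tri (m := m) h1 h0 q q' hq hq' hlt hm hm' P hP) (ε / 4) (by positivity)
  refine ⟨N, fun n hn => ?_⟩
  have e1 : dist (∫ p : K × K, F (p.1 ^ q n, p.1 ^ q' n, p.2 ^ q' n) ∂(μ.prod m))
      (∫ p : K × K, P (p.1 ^ q n, p.1 ^ q' n, p.2 ^ q' n) ∂(μ.prod m)) ≤ ε / 4 := by
    rw [dist_eq_norm, ← integral_sub
      (f := fun p : K × K => F (p.1 ^ q n, p.1 ^ q' n, p.2 ^ q' n))
      (g := fun p : K × K => P (p.1 ^ q n, p.1 ^ q' n, p.2 ^ q' n))
      (cont_int (F.continuous.comp (hcn n))) (cont_int (P.continuous.comp (hcn n)))]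
    refine (norm_integral_le_of_norm_le_const (C := ε / 4)
      (Eventually.of_forall fun p => hPF _)).trans ?_
    simp
  have e2 : dist (∫ p, P p ∂(μ.prod (μ.prod m))) (∫ p, F p ∂(μ.prod (μ.prod m))) ≤ ε / 4 := by
    rw [dist_comm, dist_eq_norm, ← integral_sub (cont_int F.continuous)
      (cont_int P.continuous)]
    refine (norm_integral_le_of_norm_le_const (C := ε / 4)
      (Eventually.of_forall fun p => hPF _)).trans ?_
    simp
  have e3 := hN n hn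
  have t1 := dist_triangle (∫ p : K × K, F (p.1 ^ q n, p.1 ^ q' n, p.2 ^ q' n) ∂(μ.prod m))
    (∫ p : K × K, P (p.1 ^ q n, p.1 ^ q' n, p.2 ^ q' n) ∂(μ.prod m))
    (∫ p, F p ∂(μ.prod (μ.prod m)))
  have t2 := dist_triangle (∫ p : K × K, P (p.1 ^ q n, p.1 ^ q' n, p.2 ^ q' n) ∂(μ.prod m))
    (∫ p, P p ∂(μ.prod (μ.prod m))) (∫ p, F p ∂(μ.prod (μ.prod m)))
  linarith

/-- the limit law, real form -/
theorem lim_real (hsep : ∀ x : K, (∀ χ : PontryaginDual K, χ x = 1) → x = 1)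
    (h1 : ∀ χ : PontryaginDual K, Tor χ → ∫ y, ((χ y : Circle) : ℂ) ∂μ = 1)
    (h0 : ∀ χ : PontryaginDual K, ¬ Tor χ → ∫ y, ((χ y : Circle) : ℂ) ∂μ = 0)
    (q q' : ℕ → ℕ) (hq : ∀ n, (q n).Prime) (hq' : ∀ n, (q' n).Prime) (hlt : ∀ n, q n < q' n)
    (hm : StrictMono q) (hm' : StrictMono q') (F : K × K × K → ℝ) (hF : Continuous F) :
    Tendsto (fun n => ∫ p : K × K, F (p.1 ^ q n, p.1 ^ q' n, p.2 ^ q' n) ∂(μ.prod m)) atTop
      (𝓝 (∫ p, F p ∂(μ.prod (μ.prod m)))) := by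
  have h := lim_cont (m := m) hsep h1 h0 q q' hq hq' hlt hm hm'
    ⟨fun p => (F p : ℂ), Complex.continuous_ofReal.comp hF⟩
  have h' := (Complex.continuous_re.tendsto _).comp h
  simp only [ContinuousMap.coe_mk, integral_complex_ofReal, Complex.ofReal_re] at h'
  refine h'.congr fun n => ?_
  show (((∫ p : K × K, F (p.1 ^ q n, p.1 ^ q' n, p.2 ^ q' n) ∂(μ.prod m) : ℝ)) : ℂ).re = _
  rw [Complex.ofReal_re]

end lim

end Pool.Agent.S7v
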