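import Pool.Agent.S7.V.Defs
import Pool.Agent.S7v.Lim

/-! S7 (MP_13664e_an), block V: the main estimate V1 (i) - (iii) for one pair of primes. -/

set_option autoImplicit false
set_option linter.unusedSectionVars false

namespace Pool.Agent.S7v

open MeasureTheory Filter Topology
open scoped ENNReal
open Pool.Agent.S7

/-- isometric action -/
structure IAct {G V : Type*} [Group G] [NormedAddCommGroup V] (act : G → V → V) : Prop where
  one : ∀ a, act 1 a = a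
  mul : ∀ g h a, act (g * h) a = act g (act h a)
  iso : ∀ g a b, ‖act g a - act g b‖ = ‖a - b‖

section mn

variable {G : Type*} [Fintype G] [Nonempty G]

/-- the minimum over a finite group -/
noncomputable def mn (f : G → ℝ) : ℝ := Finset.univ.inf' Finset.univ_nonempty f

theorem mn_le (f : G → ℝ) (g : G) : mn f ≤ f g := Finset.inf'_le f (Finset.mem_univ g)

theorem exists_mn (f : G → ℝ) : ∃ g, mn f = f g := by
  obtain ⟨g, _, hg⟩ := Finset.exists_mem_eq_inf' (Finset.univ_nonempty (α := G)) f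
  exact ⟨g, hg⟩

theorem mn_cont {X : Type*} [TopologicalSpace X] (f : G → X → ℝ) (hf : ∀ g, Continuous (f g)) :
    Continuous fun x => mn fun g => f g x := by
  unfold mn
  simp only [Finset.inf'_univ_eq_ciInf]
  have : (fun x => ⨅ i, f i x) = fun x => Finset.univ.inf' Finset.univ_nonempty fun i => f i x := by
    funext x; rw [Finset.inf'_univ_eq_ciInf]
  rw [this]
  exact Continuous.finset_inf'_apply _ fun g _ => hf g

theorem mn_meas {X : Type*} [MeasurableSpace X] (f : G → X → ℝ) (hf : ∀ g, Measurable (f g)) :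
    Measurable fun x => mn fun g => f g x := by
  unfold mn
  simp only [Finset.inf'_univ_eq_ciInf]
  exact Measurable.iInf hf

end mn

section est

variable {K : Type*} [CommGroup K] [TopologicalSpace K] [IsTopologicalGroup K] [CompactSpace K]
  [T2Space K] [SecondCountableTopology K] [MeasurableSpace K] [BorelSpace K] {m : Measure K}
  [IsProbabilityMeasure m] [m.IsHaarMeasure]
  {V : Type*} [NormedAddCommGroup V] {G : Type*} [Group G] [Fintype G] {act : G → V → V}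

/-- the minimal distance -/
noncomputable def dd (act : G → V → V) (JJ : Finset ℝ) (F : ℝ → K → V) (z w : K) : ℝ :=
  mn fun h : G => ∑ t ∈ JJ, ‖F t (z * w) - act h (F t z)‖

theorem dd_nonneg (JJ : Finset ℝ) (F : ℝ → K → V) (z w : K) : 0 ≤ dd act JJ F z w := by
  obtain ⟨g, hg⟩ := exists_mn fun h : G => ∑ t ∈ JJ, ‖F t (z * w) - act h (F t z)‖
  rw [dd, hg]
  positivity

/-- comparison of the minimal distances -/
theorem dd_le (ha : IAct act) (JJ : Finset ℝ) (F P : ℝ → K → V) (z w : K) (h : G) :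
    dd act JJ P z w ≤ ∑ t ∈ JJ, (‖F t (z * w) - act h (F t z)‖ + ‖F t (z * w) - P t (z * w)‖ +
      ‖F t z - P t z‖) := by
  refine (mn_le _ h).trans (Finset.sum_le_sum fun t _ => ?_)
  have e : P t (z * w) - act h (P t z) = -(F t (z * w) - P t (z * w)) +
      (F t (z * w) - act h (F t z)) + (act h (F t z) - act h (P t z)) := by abel
  rw [e]
  refine (norm_add₃_le).trans ?_
  rw [norm_neg, ha.iso]
  linarith

/-- one step: (i) - (iii), pointwise -/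
theorem est_pt (ha : IAct act) {Φ Ps : ℝ → K → V} {JJ : Finset ℝ} {q q' : ℕ} {ρ δ : ℝ}
    {s : ℝ → ℝ} {σ : K → G} (hpf : (m.map fun x : K => x ^ q) ≪ m)
    (hrel : ∀ t, ∃ N : Set K, m N = 0 ∧ ∀ x ∉ N, ∀ x' ∉ N, ‖Φ t (x ^ q) - Φ t (x' ^ q)‖ =
      ‖act (σ x) (Φ (t + ρ) (x ^ q')) - act (σ x') (Φ (t + ρ) (x' ^ q'))‖)
    (hs : ∀ t ∈ JJ, ∀ᵐ y ∂m, ‖Φ (t - ρ) y - Φ (s t) y‖ ≤ δ) (v : K) :
    ∀ᵐ x ∂m, dd act JJ Ps (x ^ q') (v ^ q') ≤ ∑ t ∈ JJ,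
      (‖Φ t ((v * x) ^ q') - Ps t ((v * x) ^ q')‖ + ‖Φ t (x ^ q') - Ps t (x ^ q')‖ + 2 * δ +
        ‖Φ (s t) ((v * x) ^ q) - Ps (s t) ((v * x) ^ q)‖ +
        ‖Φ (s t) (x ^ q) - Ps (s t) (x ^ q)‖ +
        ‖Ps (s t) (x ^ q * v ^ q) - Ps (s t) (x ^ q)‖) := by
  have hq : Measure.QuasiMeasurePreserving (fun x : K => x ^ q) m m :=
    ⟨(continuous_pow q).measurable, hpf⟩
  have hv : Measure.QuasiMeasurePreserving (fun x : K => v * x) m m :=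
    (measurePreserving_mul_left m v).quasiMeasurePreserving
  choose N hN0 hN using hrel
  have A1 : ∀ᵐ x ∂m, ∀ t ∈ JJ, x ∉ N (t - ρ) := by
    rw [Filter.eventually_all_finset]
    intro t _
    exact measure_eq_zero_iff_ae_notMem.mp (hN0 _)
  have A2 : ∀ᵐ x ∂m, ∀ t ∈ JJ, v * x ∉ N (t - ρ) := hv.ae A1
  have A3 : ∀ᵐ y ∂m, ∀ t ∈ JJ, ‖Φ (t - ρ) y - Φ (s t) y‖ ≤ δ := by
    rw [Filter.eventually_all_finset]
    exact fun t ht => hs t ht
  have A4 : ∀ᵐ x ∂m, ∀ t ∈ JJ, ‖Φ (t - ρ) (x ^ q) - Φ (s t) (x ^ q)‖ ≤ δ := hq.ae A3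
  have A5 : ∀ᵐ x ∂m, ∀ t ∈ JJ, ‖Φ (t - ρ) ((v * x) ^ q) - Φ (s t) ((v * x) ^ q)‖ ≤ δ := hv.ae A4
  filter_upwards [A1, A2, A4, A5] with x h1 h2 h4 h5
  refine (dd_le ha JJ Φ Ps (x ^ q') (v ^ q') ((σ (v * x))⁻¹ * σ x)).trans
    (Finset.sum_le_sum fun t ht => ?_)
  have e1 : x ^ q' * v ^ q' = (v * x) ^ q' := by rw [mul_pow, mul_comm]
  have e2 : x ^ q * v ^ q = (v * x) ^ q := by rw [mul_pow, mul_comm]
  rw [e1, e2]
  have e3 : ‖Φ t ((v * x) ^ q') - act ((σ (v * x))⁻¹ * σ x) (Φ t (x ^ q'))‖ =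
      ‖Φ (t - ρ) ((v * x) ^ q) - Φ (t - ρ) (x ^ q)‖ := by
    rw [hN (t - ρ) _ (h2 t ht) _ (h1 t ht), sub_add_cancel, ha.mul,
      ← ha.iso (σ (v * x)), ← ha.mul, mul_inv_cancel, ha.one]
  have e4 : Φ (t - ρ) ((v * x) ^ q) - Φ (t - ρ) (x ^ q) =
      (Φ (t - ρ) ((v * x) ^ q) - Φ (s t) ((v * x) ^ q)) +
      (Φ (s t) ((v * x) ^ q) - Ps (s t) ((v * x) ^ q)) +
      (Ps (s t) ((v * x) ^ q) - Ps (s t) (x ^ q)) -
      (Φ (s t) (x ^ q) - Ps (s t) (x ^ q)) - (Φ (t - ρ) (x ^ q) - Φ (s t) (x ^ q)) := by abel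
  have e5 : ‖Φ (t - ρ) ((v * x) ^ q) - Φ (t - ρ) (x ^ q)‖ ≤
      ‖Φ (t - ρ) ((v * x) ^ q) - Φ (s t) ((v * x) ^ q)‖ +
      ‖Φ (s t) ((v * x) ^ q) - Ps (s t) ((v * x) ^ q)‖ +
      ‖Ps (s t) ((v * x) ^ q) - Ps (s t) (x ^ q)‖ +
      ‖Φ (s t) (x ^ q) - Ps (s t) (x ^ q)‖ + ‖Φ (t - ρ) (x ^ q) - Φ (s t) (x ^ q)‖ := by
    rw [e4]
    refine (norm_sub_le _ _).trans (add_le_add_left ?_ _)
    refine (norm_sub_le _ _).trans (add_le_add_left ?_ _)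
    exact norm_add₃_le
  rw [e3]
  have := h4 t ht
  have := h5 t ht
  linarith

theorem act_cont (ha : IAct act) (g : G) : Continuous (act g) := by
  have : Isometry (act g) := Isometry.of_dist_eq fun a b => by
    rw [dist_eq_norm, dist_eq_norm, ha.iso]
  exact this.continuous

theorem dd_cont (ha : IAct act) (JJ : Finset ℝ) {P : ℝ → K → V} (hP : ∀ t, Continuous (P t)) :
    Continuous fun p : K × K => dd act JJ P p.1 p.2 := by
  refine mn_cont (fun (h : G) (p : K × K) => ∑ t ∈ JJ, ‖P t (p.1 * p.2) - act h (P t p.1)‖)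
    fun h => ?_
  refine continuous_finsetSum _ fun t _ => ?_
  exact (((hP t).comp (continuous_fst.mul continuous_snd)).sub
    ((act_cont ha h).comp ((hP t).comp continuous_fst))).norm

theorem dd_cont' (ha : IAct act) (JJ : Finset ℝ) {P : ℝ → K → V} (hP : ∀ t, Continuous (P t))
    {X : Type*} [TopologicalSpace X] {f g : X → K} (hf : Continuous f) (hg : Continuous g) :
    Continuous fun x => dd act JJ P (f x) (g x) := by
  have h1 := dd_cont ha JJ hP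
  have h2 : Continuous fun x => (f x, g x) := hf.prodMk hg
  have h3 := h1.comp h2
  exact h3

theorem sm_bdd_int {f : K → V} (hf : StronglyMeasurable f) {C : ℝ} (hC : ∀ y, ‖f y‖ ≤ C)
    {ν : Measure K} [IsFiniteMeasure ν] : Integrable f ν :=
  Integrable.of_bound hf.aestronglyMeasurable C (Eventually.of_forall hC)

theorem int6 {f₁ f₂ f₃ f₄ : K → ℝ} (h1 : Integrable f₁ m) (h2 : Integrable f₂ m)
    (h3 : Integrable f₃ m) (h4 : Integrable f₄ m) (c d : ℝ) :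
    Integrable (fun x => f₁ x + f₂ x + c + f₃ x + f₄ x + d) m ∧
    ∫ x, (f₁ x + f₂ x + c + f₃ x + f₄ x + d) ∂m =
      ∫ x, f₁ x ∂m + ∫ x, f₂ x ∂m + c + ∫ x, f₃ x ∂m + ∫ x, f₄ x ∂m + d := by
  have a1 : Integrable (fun x => f₁ x + f₂ x) m := h1.add h2
  have a2 : Integrable (fun x => f₁ x + f₂ x + c) m := a1.add (integrable_const c)
  have a3 : Integrable (fun x => f₁ x + f₂ x + c + f₃ x) m := a2.add h3
  have a4 : Integrable (fun x => f₁ x + f₂ x + c + f₃ x + f₄ x) m := a3.add h4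
  have a5 : Integrable (fun x => f₁ x + f₂ x + c + f₃ x + f₄ x + d) m := a4.add (integrable_const d)
  refine ⟨a5, ?_⟩
  rw [integral_add a4 (integrable_const d), integral_add a3 h4, integral_add a2 h3,
    integral_add a1 (integrable_const c), integral_add h1 h2]
  simp

/-- (i) - (iii), integrated over `x` -/
theorem est_int (ha : IAct act) {Φ Ps : ℝ → K → V} {C : ℝ} (hsm : ∀ t, StronglyMeasurable (Φ t))
    (hb : ∀ t y, ‖Φ t y‖ ≤ C) (hP : ∀ t, Continuous (Ps t)) {JJ : Finset ℝ} {q q' : ℕ}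
    {ρ δ : ℝ} (hδ : 0 ≤ δ) {s : ℝ → ℝ} {σ : K → G} (hpf : (m.map fun x : K => x ^ q) ≪ m)
    (hrel : ∀ t, ∃ N : Set K, m N = 0 ∧ ∀ x ∉ N, ∀ x' ∉ N, ‖Φ t (x ^ q) - Φ t (x' ^ q)‖ =
      ‖act (σ x) (Φ (t + ρ) (x ^ q')) - act (σ x') (Φ (t + ρ) (x' ^ q'))‖)
    (hs : ∀ t ∈ JJ, ∀ᵐ y ∂m, ‖Φ (t - ρ) y - Φ (s t) y‖ ≤ δ)
    (g1 : ∀ t ∈ JJ, ∫ x, ‖Φ t (x ^ q') - Ps t (x ^ q')‖ ∂m ≤ 2 * δ)
    (g2 : ∀ t ∈ JJ, ∫ x, ‖Φ (s t) (x ^ q) - Ps (s t) (x ^ q)‖ ∂m ≤ 2 * δ)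
    {κ : K → ℝ} (hκ : ∀ w, 0 ≤ κ w)
    (hO : ∀ w, κ w ≠ 0 → ∀ t ∈ JJ, ∀ z, ‖Ps (s t) (z * w) - Ps (s t) z‖ ≤ δ) (v : K) :
    ∫ x, κ (v ^ q) * dd act JJ Ps (x ^ q') (v ^ q') ∂m ≤ κ (v ^ q) * (JJ.card * (11 * δ)) := by
  rcases eq_or_ne (κ (v ^ q)) 0 with h0 | h0
  · simp [h0]
  rw [integral_const_mul]
  refine mul_le_mul_of_nonneg_left ?_ (hκ _)
  have hdm : Continuous fun x : K => dd act JJ Ps (x ^ q') (v ^ q') :=
    dd_cont' ha JJ hP (continuous_pow q') continuous_const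
  have hI1 : ∀ t, Integrable (fun x => ‖Φ t (x ^ q') - Ps t (x ^ q')‖) m := by
    intro t
    have h1 : Integrable (fun x => Φ t (x ^ q')) m :=
      sm_bdd_int ((hsm t).comp_measurable (continuous_pow q').measurable) fun y => hb t _
    exact (h1.sub (cont_int ((hP t).comp (continuous_pow q')))).norm
  have hI2 : ∀ t, Integrable (fun x => ‖Φ t (x ^ q) - Ps t (x ^ q)‖) m := by
    intro t
    have h1 : Integrable (fun x => Φ t (x ^ q)) m :=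
      sm_bdd_int ((hsm t).comp_measurable (continuous_pow q).measurable) fun y => hb t _
    exact (h1.sub (cont_int ((hP t).comp (continuous_pow q)))).norm
  have hI1' : ∀ t, Integrable (fun x => ‖Φ t ((v * x) ^ q') - Ps t ((v * x) ^ q')‖) m :=
    fun t => (hI1 t).comp_mul_left v
  have hI2' : ∀ t, Integrable (fun x => ‖Φ t ((v * x) ^ q) - Ps t ((v * x) ^ q)‖) m :=
    fun t => (hI2 t).comp_mul_left v
  have e1 : ∀ t, ∫ x, ‖Φ t ((v * x) ^ q') - Ps t ((v * x) ^ q')‖ ∂m =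
      ∫ x, ‖Φ t (x ^ q') - Ps t (x ^ q')‖ ∂m := fun t =>
    integral_mul_left_eq_self (fun x => ‖Φ t (x ^ q') - Ps t (x ^ q')‖) v
  have e2 : ∀ t, ∫ x, ‖Φ t ((v * x) ^ q) - Ps t ((v * x) ^ q)‖ ∂m =
      ∫ x, ‖Φ t (x ^ q) - Ps t (x ^ q)‖ ∂m := fun t =>
    integral_mul_left_eq_self (fun x => ‖Φ t (x ^ q) - Ps t (x ^ q)‖) v
  have hae : ∀ᵐ x ∂m, dd act JJ Ps (x ^ q') (v ^ q') ≤ ∑ t ∈ JJ,
      (‖Φ t ((v * x) ^ q') - Ps t ((v * x) ^ q')‖ + ‖Φ t (x ^ q') - Ps t (x ^ q')‖ + 2 * δ +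
        ‖Φ (s t) ((v * x) ^ q) - Ps (s t) ((v * x) ^ q)‖ +
        ‖Φ (s t) (x ^ q) - Ps (s t) (x ^ q)‖ + δ) := by
    filter_upwards [est_pt (Ps := Ps) ha hpf hrel hs v] with x hx
    refine hx.trans (Finset.sum_le_sum fun t ht => ?_)
    have := hO _ h0 t ht (x ^ q)
    linarith
  have hIt := fun t => int6 (hI1' t) (hI1 t) (hI2' (s t)) (hI2 (s t)) (2 * δ) δ
  refine (integral_mono_ae (cont_int hdm) (integrable_finsetSum _ fun t _ => (hIt t).1)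
    hae).trans ?_
  rw [integral_finsetSum _ fun t _ => (hIt t).1, ← nsmul_eq_mul]
  refine Finset.sum_le_card_nsmul _ _ _ fun t ht => ?_
  rw [(hIt t).2, e1, e2]
  have h1 := g1 t ht
  have h2 := g2 t ht
  linarith

/-- (i) - (iii), integrated over `v` and `x` -/
theorem est_prod (ha : IAct act) {μ : Measure K} [IsProbabilityMeasure μ] {Φ Ps : ℝ → K → V}
    {C : ℝ} (hsm : ∀ t, StronglyMeasurable (Φ t))
    (hb : ∀ t y, ‖Φ t y‖ ≤ C) (hP : ∀ t, Continuous (Ps t)) {JJ : Finset ℝ} {q q' : ℕ}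
    {ρ δ : ℝ} (hδ : 0 ≤ δ) {s : ℝ → ℝ} {σ : K → G} (hpf : (m.map fun x : K => x ^ q) ≪ m)
    (hrel : ∀ t, ∃ N : Set K, m N = 0 ∧ ∀ x ∉ N, ∀ x' ∉ N, ‖Φ t (x ^ q) - Φ t (x' ^ q)‖ =
      ‖act (σ x) (Φ (t + ρ) (x ^ q')) - act (σ x') (Φ (t + ρ) (x' ^ q'))‖)
    (hs : ∀ t ∈ JJ, ∀ᵐ y ∂m, ‖Φ (t - ρ) y - Φ (s t) y‖ ≤ δ)
    (g1 : ∀ t ∈ JJ, ∫ x, ‖Φ t (x ^ q') - Ps t (x ^ q')‖ ∂m ≤ 2 * δ)
    (g2 : ∀ t ∈ JJ, ∫ x, ‖Φ (s t) (x ^ q) - Ps (s t) (x ^ q)‖ ∂m ≤ 2 * δ)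
    {κ : K → ℝ} (hκc : Continuous κ) (hκ : ∀ w, 0 ≤ κ w)
    (hO : ∀ w, κ w ≠ 0 → ∀ t ∈ JJ, ∀ z, ‖Ps (s t) (z * w) - Ps (s t) z‖ ≤ δ) :
    ∫ p : K × K, κ (p.1 ^ q) * dd act JJ Ps (p.2 ^ q') (p.1 ^ q') ∂(μ.prod m) ≤
      (JJ.card * (11 * δ)) * ∫ p : K × K, κ (p.1 ^ q) ∂(μ.prod m) := by
  have hc1 : Continuous fun p : K × K => κ (p.1 ^ q) * dd act JJ Ps (p.2 ^ q') (p.1 ^ q') :=
    (hκc.comp (continuous_fst.pow q)).mul (dd_cont' ha JJ hP (continuous_snd.pow q')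
      (continuous_fst.pow q'))
  have hc2 : Continuous fun p : K × K => κ (p.1 ^ q) :=
    hκc.comp (continuous_fst.pow q)
  have hi1 : Integrable (fun p : K × K => κ (p.1 ^ q) * dd act JJ Ps (p.2 ^ q') (p.1 ^ q'))
    (μ.prod m) := cont_int hc1
  have hi2 : Integrable (fun p : K × K => κ (p.1 ^ q)) (μ.prod m) := cont_int hc2
  rw [integral_prod _ hi1, integral_prod _ hi2, ← integral_const_mul]
  refine integral_mono hi1.integral_prod_left ?_ fun v => ?_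
  · exact hi2.integral_prod_left.const_mul _
  · have := est_int ha hsm hb hP hδ hpf hrel hs g1 g2 hκ hO v
    simp only [integral_const, probReal_univ, one_smul]
    rw [mul_comm _ (κ (v ^ q))]
    exact this

end est

end Pool.Agent.S7v
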