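import Pool.Agent.S7v.Est
import Pool.Agent.S7.Kbr

/-! S7 (MP_13664e_an), block V: V1, the relation along `W`. -/

set_option autoImplicit false
set_option linter.unusedSectionVars false

namespace Pool.Agent.S7v

open MeasureTheory Filter Topology
open scoped ENNReal
open Pool.Agent.S7

theorem thin_union {A B : Set ℕ} (hA : Thin A) (hB : Thin B) : Thin (A ∪ B) := by
  classical
  obtain ⟨C, hC⟩ := hA
  obtain ⟨D, hD⟩ := hB
  refine ⟨C + D, fun F hF hp => ?_⟩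
  have h1 := hC (F.filter fun q => q ∈ A) (fun q hq => (Finset.mem_filter.mp hq).2)
    (fun q hq => hp q (Finset.mem_filter.mp hq).1)
  have h2 := hD (F.filter fun q => ¬ q ∈ A) (fun q hq => by
    have h := Finset.mem_filter.mp hq
    exact (hF h.1).resolve_left h.2) (fun q hq => hp q (Finset.mem_filter.mp hq).1)
  rw [← Finset.sum_filter_add_sum_filter_not F (fun q => q ∈ A)]
  exact add_le_add h1 h2

theorem thin_empty : Thin ∅ := by
  refine ⟨0, fun F hF _ => ?_⟩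
  have : F = ∅ := by
    rw [← Finset.coe_eq_empty]
    exact Set.subset_empty_iff.mp hF
  rw [this]; simp

theorem thin_biUnion {ι : Type*} (s : Finset ι) (B : ι → Set ℕ) (h : ∀ i ∈ s, Thin (B i)) :
    Thin {q | ∃ i ∈ s, q ∈ B i} := by
  classical
  induction s using Finset.induction_on with
  | empty =>
    have : {q | ∃ i ∈ (∅ : Finset ι), q ∈ B i} = ∅ := by
      ext q; simp
    rw [this]; exact thin_empty
  | insert a s _ ih =>
    have e : {q | ∃ i ∈ insert a s, q ∈ B i} = B a ∪ {q | ∃ i ∈ s, q ∈ B i} := by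
      ext q; simp
    rw [e]
    exact thin_union (h a (Finset.mem_insert_self _ _))
      (ih fun i hi => h i (Finset.mem_insert_of_mem hi))

section main

variable {K : Type*} [CommGroup K] [TopologicalSpace K] [IsTopologicalGroup K] [CompactSpace K]
  [T2Space K] [SecondCountableTopology K] [MeasurableSpace K] [BorelSpace K] {u : K}
  {m μ : Measure K} [IsProbabilityMeasure m] [m.IsHaarMeasure] [IsProbabilityMeasure μ]
  {V : Type*} [NormedAddCommGroup V] {G : Type*} [Group G] [Fintype G] {act : G → V → V}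

/-- a continuous function is almost invariant under small translations -/
theorem near_one {f : K → V} (hf : Continuous f) {δ : ℝ} (hδ : 0 < δ) :
    ∀ᶠ w in 𝓝 (1 : K), ∀ z, ‖f (z * w) - f z‖ ≤ δ := by
  have h := isCompact_univ.eventually_forall_of_forall_eventually (x₀ := (1 : K))
    (P := fun w z => ‖f (z * w) - f z‖ ≤ δ) (fun z _ => ?_)
  · filter_upwards [h] with w hw z
    exact hw z (Set.mem_univ z)
  · have hc : Continuous fun p : K × K => ‖f (p.2 * p.1) - f p.2‖ :=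
      ((hf.comp (continuous_snd.mul continuous_fst)).sub (hf.comp continuous_snd)).norm
    have h1 : (fun p : K × K => ‖f (p.2 * p.1) - f p.2‖) (1, z) < δ := by simpa using hδ
    filter_upwards [hc.continuousAt.eventually_lt continuousAt_const h1] with p hp
    exact hp.le

/-- bump functions near `1` -/
theorem exists_bump (hpos : ∀ O : Set K, IsOpen O → (1 : K) ∈ O → 0 < μ O) {O : Set K}
    (hO : O ∈ 𝓝 (1 : K)) :
    ∃ κ : K → ℝ, Continuous κ ∧ (∀ w, 0 ≤ κ w) ∧ (∀ w, κ w ≠ 0 → w ∈ O) ∧ 0 < ∫ w, κ w ∂μ := by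
  obtain ⟨O', hO'O, hO', h1⟩ := mem_nhds_iff.mp hO
  obtain ⟨f, hf0, hf1, hf⟩ := exists_continuous_zero_one_of_isClosed (s := O'ᶜ) (t := {1})
    hO'.isClosed_compl isClosed_singleton (by
      rw [Set.disjoint_singleton_right]
      exact fun h => h h1)
  refine ⟨f, f.continuous, fun w => (hf w).1, fun w hw => ?_, ?_⟩
  · by_contra hcon
    exact hw (hf0 (fun h => hcon (hO'O h)))
  · have hint : Integrable (fun w => f w) μ := cont_int f.continuous
    rw [integral_pos_iff_support_of_nonneg (fun w => (hf w).1) hint]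
    refine hpos _ (f.continuous.isOpen_support) ?_
    have : f 1 = 1 := hf1 rfl
    rw [Function.mem_support, this]
    exact one_ne_zero

/-- the relation for norms -/
def RelV (m : Measure K) (Φ : ℝ → K → V) (act : G → V → V) (q q' : ℕ) (ρ : ℝ) (σ : K → G) : Prop :=
  ∀ t, ∃ N : Set K, m N = 0 ∧ ∀ x ∉ N, ∀ x' ∉ N, ‖Φ t (x ^ q) - Φ t (x' ^ q)‖ =
    ‖act (σ x) (Φ (t + ρ) (x ^ q')) - act (σ x') (Φ (t + ρ) (x' ^ q'))‖

/-- the supply for V1 -/
def SupV (m : Measure K) (Φ : ℝ → K → V) (act : G → V → V) : Prop :=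
  ∀ B : Set ℕ, Thin B → ∀ P₀ : ℕ, ∃ (q q' : ℕ) (σ : K → G), q.Prime ∧ q'.Prime ∧ q ∉ B ∧
    q' ∉ B ∧ P₀ ≤ q ∧ q < q' ∧ Real.log q' - Real.log q ≤ 1 ∧
    RelV m Φ act q q' (Real.log q' - Real.log q) σ

theorem exists_seq {B : Set ℕ} (hB : Thin B) {Φ : ℝ → K → V} (hp : SupV m Φ act) :
    ∃ (q q' : ℕ → ℕ) (σ : ℕ → K → G), StrictMono q ∧ StrictMono q' ∧ ∀ n, (q n).Prime ∧
      (q' n).Prime ∧ q n ∉ B ∧ q' n ∉ B ∧ q n < q' n ∧ Real.log (q' n) - Real.log (q n) ≤ 1 ∧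
      RelV m Φ act (q n) (q' n) (Real.log (q' n) - Real.log (q n)) (σ n) := by
  have hp' := fun P₀ => hp B hB (P₀ + 1)
  choose Q Q' S h1 h2 h3 h4 h5 h6 h7 h8 using hp'
  have e : ∀ n, Q' (Q'^[n] 0) = Q'^[n + 1] 0 := fun n =>
    (Function.iterate_succ_apply' Q' n 0).symm
  refine ⟨fun n => Q (Q'^[n] 0), fun n => Q' (Q'^[n] 0), fun n => S (Q'^[n] 0),
    strictMono_nat_of_lt_succ fun n => ?_, strictMono_nat_of_lt_succ fun n => ?_, fun n =>
      ⟨h1 _, h2 _, h3 _, h4 _, h6 _, h7 _, h8 _⟩⟩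
  · have a1 := h6 (Q'^[n] 0)
    have a2 := h5 (Q'^[n + 1] 0)
    rw [e] at a1
    omega
  · have a1 := h6 (Q'^[n + 1] 0)
    have a2 := h5 (Q'^[n + 1] 0)
    have a3 := e n
    show Q' (Q'^[n] 0) < Q' (Q'^[n + 1] 0)
    omega

theorem good_bd (hK : KD K u) {f g : K → V} (hf : StronglyMeasurable f) {C : ℝ}
    (hC : ∀ y, ‖f y‖ ≤ C) (hg : Continuous g) {δ : ℝ} (hδ : 0 < δ)
    (h : ∫ y, ‖f y - g y‖ ∂m ≤ δ) :
    Thin {q : ℕ | ¬ ∫ y, ‖f (y ^ q) - g (y ^ q)‖ ∂m ≤ 2 * δ} := by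
  obtain ⟨D, hD⟩ := (isCompact_range hg).isBounded.exists_norm_le
  have hm : MemLp (fun y => ‖f y - g y‖) 2 m := by
    refine MemLp.of_bound (C := C + D) (hf.sub hg.stronglyMeasurable).norm.aestronglyMeasurable
      (Eventually.of_forall fun y => ?_)
    rw [norm_norm]
    exact (norm_sub_le _ _).trans (add_le_add (hC y) (hD _ ⟨y, rfl⟩))
  obtain ⟨C', hC'⟩ := good hK hm hδ
  refine ⟨C', fun F hF hp => hC' F (fun q hq => ?_) hp⟩
  have h2 := hF hq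
  simp only [Set.mem_ofPred_eq, not_le] at h2
  show δ < |∫ y, ‖f (y ^ q) - g (y ^ q)‖ ∂m - ∫ y, ‖f y - g y‖ ∂m|
  refine lt_of_lt_of_le ?_ (le_abs_self _)
  linarith

/-- the key bound for one accuracy `δ` -/
theorem step_A (hK : KD K u) (ha : IAct act) [NormedSpace ℝ V] {Φ : ℝ → K → V} {C : ℝ}
    (hΦ : Fam m C Φ)
    (h1 : ∀ χ : PontryaginDual K, Tor χ → ∫ y, ((χ y : Circle) : ℂ) ∂μ = 1)
    (h0 : ∀ χ : PontryaginDual K, ¬ Tor χ → ∫ y, ((χ y : Circle) : ℂ) ∂μ = 0)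
    (hpos : ∀ O : Set K, IsOpen O → (1 : K) ∈ O → 0 < μ O) (hp : SupV m Φ act)
    (JJ : Finset ℝ) {δ : ℝ} (hδ : 0 < δ) :
    ∃ Ps : ℝ → K → V, (∀ t, Continuous (Ps t)) ∧ (∀ t, ∫ y, ‖Φ t y - Ps t y‖ ∂m ≤ δ) ∧
      ∫ p : K × K, dd act JJ Ps p.2 p.1 ∂(μ.prod m) ≤ JJ.card * (11 * δ) := by
  classical
  have hap : ∀ t, ∃ P : K → V, Continuous P ∧ ∫ y, ‖Φ t y - P y‖ ∂m ≤ δ := by
    intro t
    obtain ⟨g, hg, _⟩ := (sm_bdd_int (hΦ.sm t) (hΦ.bdd t) :
      Integrable (Φ t) m).exists_boundedContinuous_integral_sub_le hδ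
    exact ⟨g, g.continuous, hg⟩
  choose Ps hPc hPs using hap
  refine ⟨Ps, hPc, hPs, ?_⟩
  set r : ℝ := δ ^ 2 / 2 with hr
  have hr0 : 0 < r := by positivity
  set Nn : ℕ := ⌊1 / r⌋₊ with hNn
  set SS : Finset ℝ := JJ ∪ (JJ ×ˢ Finset.range (Nn + 1)).image (fun p => p.1 - p.2 * r) with hSS
  have hB : Thin {q | ∃ s ∈ SS, q ∈ {q : ℕ | ¬ ∫ y, ‖Φ s (y ^ q) - Ps s (y ^ q)‖ ∂m ≤ 2 * δ}} :=
    thin_biUnion SS _ fun s _ => good_bd hK (hΦ.sm s) (hΦ.bdd s) (hPc s) hδ (hPs s)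
  obtain ⟨q, q', σ, hq, hq', hall⟩ := exists_seq hB hp
  have hO : ∀ᶠ w in 𝓝 (1 : K), ∀ s ∈ SS, ∀ z, ‖Ps s (z * w) - Ps s z‖ ≤ δ := by
    rw [Filter.eventually_all_finset]
    exact fun s _ => near_one (hPc s) hδ
  obtain ⟨κ, hκc, hκ0, hκO, hκ⟩ := exists_bump (μ := μ) hpos hO
  have hgood : ∀ n, ∀ s ∈ SS, ∀ p : ℕ, (p = q n ∨ p = q' n) →
      ∫ y, ‖Φ s (y ^ p) - Ps s (y ^ p)‖ ∂m ≤ 2 * δ := by
    intro n s hs p hpp
    obtain ⟨_, _, a1, a2, _⟩ := hall n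
    by_contra hcon
    rcases hpp with rfl | rfl
    · exact a1 ⟨s, hs, hcon⟩
    · exact a2 ⟨s, hs, hcon⟩
  have key : ∀ n, ∫ p : K × K, κ (p.1 ^ q n) * dd act JJ Ps (p.2 ^ q' n) (p.1 ^ q' n)
      ∂(μ.prod m) ≤ (JJ.card * (11 * δ)) * ∫ p : K × K, κ (p.1 ^ q n) ∂(μ.prod m) := by
    intro n
    obtain ⟨pq, pq', _, _, hlt, hle, hrel⟩ := hall n
    set ρ : ℝ := Real.log (q' n) - Real.log (q n) with hρ
    have hρ0 : 0 ≤ ρ := by
      have h1 : (0 : ℝ) < q n := by exact_mod_cast pq.pos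
      have h2 : (q n : ℝ) ≤ q' n := by exact_mod_cast hlt.le
      have := Real.log_le_log h1 h2
      linarith
    set k : ℕ := ⌊ρ / r⌋₊ with hk
    have hkN : k ∈ Finset.range (Nn + 1) := by
      rw [Finset.mem_range, Nat.lt_succ_iff]
      exact Nat.floor_le_floor (div_le_div_of_nonneg_right hle hr0.le)
    have hk1 : (k : ℝ) * r ≤ ρ := by
      have := Nat.floor_le (div_nonneg hρ0 hr0.le)
      rwa [le_div_iff₀ hr0] at this
    have hk2 : ρ < (k : ℝ) * r + r := by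
      have := Nat.lt_floor_add_one (ρ / r)
      rw [div_lt_iff₀ hr0] at this
      linarith
    have hmem : ∀ t ∈ JJ, t - k * r ∈ SS := by
      intro t ht
      exact Finset.mem_union_right _ (Finset.mem_image.mpr
        ⟨(t, k), Finset.mem_product.mpr ⟨ht, hkN⟩, rfl⟩)
    refine est_prod ha hΦ.sm hΦ.bdd hPc hδ.le (s := fun t => t - k * r) (σ := σ n) (ρ := ρ) ?_
      hrel ?_ ?_ ?_ hκc hκ0 ?_
    · rw [Pool.Agent.S7.map_pow hK pq.one_le]
      exact (Measure.absolutelyContinuous_of_le Measure.restrict_le_self).smul_left _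
    · intro t _
      filter_upwards [hΦ.cont (t - ρ) (t - k * r)] with y hy
      refine hy.trans ?_
      have e1 : |t - ρ - (t - k * r)| ≤ r := by
        rw [abs_le]; constructor <;> linarith
      calc Real.sqrt (2 * |t - ρ - (t - k * r)|) ≤ Real.sqrt (δ ^ 2) := by
            apply Real.sqrt_le_sqrt
            rw [hr] at e1
            linarith
        _ = δ := Real.sqrt_sq hδ.le
    · exact fun t ht => hgood n t (Finset.mem_union_left _ ht) _ (Or.inr rfl)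
    · exact fun t ht => hgood n _ (hmem t ht) _ (Or.inl rfl)
    · exact fun w hw t ht z => hκO w hw _ (hmem t ht) z
  have hL1 := lim_real (m := m) hK.sep h1 h0 q q' (fun n => (hall n).1) (fun n => (hall n).2.1)
    (fun n => (hall n).2.2.2.2.1) hq hq'
    (fun p : K × K × K => κ p.1 * dd act JJ Ps p.2.2 p.2.1)
    ((hκc.comp continuous_fst).mul (dd_cont' ha JJ hPc (continuous_snd.comp continuous_snd)
      (continuous_fst.comp continuous_snd)))
  have hL2 := lim_real (m := m) hK.sep h1 h0 q q' (fun n => (hall n).1) (fun n => (hall n).2.1)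
    (fun n => (hall n).2.2.2.2.1) hq hq' (fun p : K × K × K => κ p.1)
    (hκc.comp continuous_fst)
  have hle := le_of_tendsto_of_tendsto' hL1 (hL2.const_mul (JJ.card * (11 * δ))) key
  have e1 : ∫ p : K × K × K, κ p.1 * dd act JJ Ps p.2.2 p.2.1 ∂(μ.prod (μ.prod m)) =
      (∫ w, κ w ∂μ) * ∫ p : K × K, dd act JJ Ps p.2 p.1 ∂(μ.prod m) :=
    integral_prod_mul (μ := μ) (ν := μ.prod m) κ (fun p : K × K => dd act JJ Ps p.2 p.1)
  have e2 : ∫ p : K × K × K, κ p.1 ∂(μ.prod (μ.prod m)) = ∫ w, κ w ∂μ := by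
    have := integral_prod_mul (μ := μ) (ν := μ.prod m) κ (fun _ : K × K => (1 : ℝ))
    simpa using this
  rw [e1, e2, mul_comm] at hle
  exact le_of_mul_le_mul_right hle hκ

theorem dd_meas (ha : IAct act) (JJ : Finset ℝ) {F : ℝ → K → V}
    (hF : ∀ t, StronglyMeasurable (F t)) :
    Measurable fun p : K × K => dd act JJ F p.2 p.1 := by
  refine mn_meas (fun (h : G) (p : K × K) => ∑ t ∈ JJ, ‖F t (p.2 * p.1) - act h (F t p.2)‖)
    fun h => ?_
  refine Finset.measurable_fun_sum _ fun t _ => ?_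
  have a1 : StronglyMeasurable fun p : K × K => F t (p.2 * p.1) :=
    (hF t).comp_measurable (measurable_snd.mul measurable_fst)
  have a2 : StronglyMeasurable fun p : K × K => act h (F t p.2) :=
    (act_cont ha h).comp_stronglyMeasurable ((hF t).comp_measurable measurable_snd)
  exact (a1.sub a2).norm.measurable

theorem tr_int {f : K → ℝ} (hf : StronglyMeasurable f) {D : ℝ} (hD : ∀ y, ‖f y‖ ≤ D) :
    Integrable (fun p : K × K => f (p.2 * p.1)) (μ.prod m) ∧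
    ∫ p : K × K, f (p.2 * p.1) ∂(μ.prod m) = ∫ z, f z ∂m ∧
    Integrable (fun p : K × K => f p.2) (μ.prod m) ∧
    ∫ p : K × K, f p.2 ∂(μ.prod m) = ∫ z, f z ∂m := by
  have a1 : StronglyMeasurable fun p : K × K => f (p.2 * p.1) :=
    hf.comp_measurable (measurable_snd.mul measurable_fst)
  have a2 : StronglyMeasurable fun p : K × K => f p.2 := hf.comp_measurable measurable_snd
  have i1 : Integrable (fun p : K × K => f (p.2 * p.1)) (μ.prod m) :=
    Integrable.of_bound a1.aestronglyMeasurable D (Eventually.of_forall fun p => hD _)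
  have i2 : Integrable (fun p : K × K => f p.2) (μ.prod m) :=
    Integrable.of_bound a2.aestronglyMeasurable D (Eventually.of_forall fun p => hD _)
  refine ⟨i1, ?_, i2, ?_⟩
  · rw [integral_prod _ i1]
    have e : ∀ w : K, ∫ z, f (z * w) ∂m = ∫ z, f z ∂m := fun w =>
      integral_mul_right_eq_self f w
    simp only [e, integral_const, probReal_univ, one_smul]
  · rw [integral_prod _ i2]
    simp only [integral_const, probReal_univ, one_smul]

theorem dd_cmp (ha : IAct act) (JJ : Finset ℝ) {Φ Ps : ℝ → K → V} (p : K × K) :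
    dd act JJ Φ p.2 p.1 ≤ dd act JJ Ps p.2 p.1 +
      ∑ t ∈ JJ, (‖Ps t (p.2 * p.1) - Φ t (p.2 * p.1)‖ + ‖Ps t p.2 - Φ t p.2‖) := by
  obtain ⟨h, hh⟩ := exists_mn fun h : G => ∑ t ∈ JJ, ‖Ps t (p.2 * p.1) - act h (Ps t p.2)‖
  refine (dd_le ha JJ Ps Φ p.2 p.1 h).trans (le_of_eq ?_)
  have e : dd act JJ Ps p.2 p.1 = ∑ t ∈ JJ, ‖Ps t (p.2 * p.1) - act h (Ps t p.2)‖ := hh
  rw [e, ← Finset.sum_add_distrib]
  refine Finset.sum_congr rfl fun t _ => ?_
  rw [add_assoc]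

theorem sum_int (JJ : Finset ℝ) {Φ Ps : ℝ → K → V} {C : ℝ} (hs : ∀ t, StronglyMeasurable (Φ t))
    (hb : ∀ t y, ‖Φ t y‖ ≤ C) (hPc : ∀ t, Continuous (Ps t)) {δ : ℝ}
    (hPs : ∀ t, ∫ y, ‖Φ t y - Ps t y‖ ∂m ≤ δ) :
    Integrable (fun p : K × K => ∑ t ∈ JJ, (‖Ps t (p.2 * p.1) - Φ t (p.2 * p.1)‖ +
        ‖Ps t p.2 - Φ t p.2‖)) (μ.prod m) ∧
    ∫ p : K × K, ∑ t ∈ JJ, (‖Ps t (p.2 * p.1) - Φ t (p.2 * p.1)‖ +
        ‖Ps t p.2 - Φ t p.2‖) ∂(μ.prod m) ≤ JJ.card * (2 * δ) := by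
  have hg : ∀ t, Integrable (fun p : K × K => ‖Ps t (p.2 * p.1) - Φ t (p.2 * p.1)‖ +
        ‖Ps t p.2 - Φ t p.2‖) (μ.prod m) ∧
      ∫ p : K × K, (‖Ps t (p.2 * p.1) - Φ t (p.2 * p.1)‖ + ‖Ps t p.2 - Φ t p.2‖)
        ∂(μ.prod m) ≤ 2 * δ := by
    intro t
    have hg1 : StronglyMeasurable fun y => ‖Ps t y - Φ t y‖ :=
      ((hPc t).stronglyMeasurable.sub (hs t)).norm
    obtain ⟨D, hD⟩ := (isCompact_range (hPc t)).isBounded.exists_norm_le
    have hgb : ∀ y, ‖(‖Ps t y - Φ t y‖)‖ ≤ D + C := fun y => by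
      rw [norm_norm]
      exact (norm_sub_le _ _).trans (add_le_add (hD _ ⟨y, rfl⟩) (hb t y))
    obtain ⟨i1, e1, i2, e2⟩ := tr_int (m := m) (μ := μ) hg1 hgb
    refine ⟨i1.add i2, ?_⟩
    rw [integral_add i1 i2, e1, e2]
    have e : ∫ y, ‖Ps t y - Φ t y‖ ∂m ≤ δ := by
      simp only [norm_sub_rev (Ps t _)]
      exact hPs t
    linarith
  refine ⟨integrable_finsetSum _ fun t _ => (hg t).1, ?_⟩
  rw [integral_finsetSum _ fun t _ => (hg t).1, ← nsmul_eq_mul]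
  exact Finset.sum_le_card_nsmul _ _ _ fun t _ => (hg t).2

theorem dd_int (ha : IAct act) (JJ : Finset ℝ) {Φ : ℝ → K → V} {C : ℝ}
    (hs : ∀ t, StronglyMeasurable (Φ t)) (hb : ∀ t y, ‖Φ t y‖ ≤ C) :
    Integrable (fun p : K × K => dd act JJ Φ p.2 p.1) (μ.prod m) := by
  have hm : Measurable fun p : K × K => dd act JJ Φ p.2 p.1 := dd_meas ha JJ hs
  have hle0 : ∀ p : K × K, dd act JJ Φ p.2 p.1 ≤ JJ.card * (2 * C) := by
    intro p
    refine (mn_le _ (1 : G)).trans ?_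
    rw [← nsmul_eq_mul]
    refine Finset.sum_le_card_nsmul _ _ _ fun t _ => ?_
    rw [ha.one]
    refine (norm_sub_le _ _).trans ?_
    have a1 := hb t (p.2 * p.1)
    have a2 := hb t p.2
    linarith
  exact Integrable.of_bound hm.aestronglyMeasurable (JJ.card * (2 * C))
    (Eventually.of_forall fun p => by
      rw [Real.norm_of_nonneg (dd_nonneg JJ Φ p.2 p.1)]
      exact hle0 p)

theorem dd_bound (hK : KD K u) (ha : IAct act) [NormedSpace ℝ V] {Φ : ℝ → K → V} {C : ℝ}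
    (hΦ : Fam m C Φ)
    (h1 : ∀ χ : PontryaginDual K, Tor χ → ∫ y, ((χ y : Circle) : ℂ) ∂μ = 1)
    (h0 : ∀ χ : PontryaginDual K, ¬ Tor χ → ∫ y, ((χ y : Circle) : ℂ) ∂μ = 0)
    (hpos : ∀ O : Set K, IsOpen O → (1 : K) ∈ O → 0 < μ O) (hp : SupV m Φ act)
    (JJ : Finset ℝ) {δ : ℝ} (hδ : 0 < δ) :
    ∫ p : K × K, dd act JJ Φ p.2 p.1 ∂(μ.prod m) ≤ JJ.card * (13 * δ) := by
  obtain ⟨Ps, hPc, hPs, hA⟩ := step_A hK ha hΦ h1 h0 hpos hp JJ hδ
  obtain ⟨iS, eS⟩ := sum_int (μ := μ) JJ hΦ.sm hΦ.bdd hPc hPs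
  have hi : Integrable (fun p : K × K => dd act JJ Φ p.2 p.1) (μ.prod m) :=
    dd_int ha JJ hΦ.sm hΦ.bdd
  have hc : Continuous fun p : K × K => dd act JJ Ps p.2 p.1 :=
    dd_cont' ha JJ hPc continuous_snd continuous_fst
  have hiP : Integrable (fun p : K × K => dd act JJ Ps p.2 p.1) (μ.prod m) := cont_int hc
  refine (integral_mono hi (hiP.add iS) fun p => dd_cmp ha JJ p).trans ?_
  refine (le_of_eq (integral_add hiP iS)).trans ?_
  calc _ ≤ (JJ.card : ℝ) * (11 * δ) + JJ.card * (2 * δ) := add_le_add hA eS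
    _ = JJ.card * (13 * δ) := by ring

theorem dd_zero (JJ : Finset ℝ) {Φ : ℝ → K → V} {z w : K} (h : dd act JJ Φ z w = 0) :
    ∃ g : G, ∀ t ∈ JJ, Φ t (z * w) = act g (Φ t z) := by
  obtain ⟨g, hg⟩ := exists_mn fun h : G => ∑ t ∈ JJ, ‖Φ t (z * w) - act h (Φ t z)‖
  refine ⟨g, fun t ht => ?_⟩
  have hs : ∑ t ∈ JJ, ‖Φ t (z * w) - act g (Φ t z)‖ = 0 := by
    rw [← hg]; exact h
  have := (Finset.sum_eq_zero_iff_of_nonneg fun t _ => norm_nonneg _).mp hs t ht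
  exact sub_eq_zero.mp (norm_eq_zero.mp this)

/-- V1 -/
theorem V1 (hK : KD K u) (ha : IAct act) [NormedSpace ℝ V] {Φ : ℝ → K → V} {C : ℝ}
    (hΦ : Fam m C Φ)
    (h1 : ∀ χ : PontryaginDual K, Tor χ → ∫ y, ((χ y : Circle) : ℂ) ∂μ = 1)
    (h0 : ∀ χ : PontryaginDual K, ¬ Tor χ → ∫ y, ((χ y : Circle) : ℂ) ∂μ = 0)
    (hpos : ∀ O : Set K, IsOpen O → (1 : K) ∈ O → 0 < μ O) (hp : SupV m Φ act)
    (JJ : Finset ℝ) :
    ∀ᵐ p ∂(μ.prod m), ∃ g : G, ∀ t ∈ JJ, Φ t (p.2 * p.1) = act g (Φ t p.2) := by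
  have hi : Integrable (fun p : K × K => dd act JJ Φ p.2 p.1) (μ.prod m) :=
    dd_int ha JJ hΦ.sm hΦ.bdd
  have hzero : ∫ p : K × K, dd act JJ Φ p.2 p.1 ∂(μ.prod m) = 0 := by
    refine le_antisymm ?_ (integral_nonneg fun p => dd_nonneg JJ Φ p.2 p.1)
    refine le_of_forall_pos_le_add fun ε hε => ?_
    have hc : (0 : ℝ) ≤ JJ.card := Nat.cast_nonneg _
    have := dd_bound hK ha hΦ h1 h0 hpos hp JJ
      (δ := ε / (13 * (JJ.card + 1))) (by positivity)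
    refine this.trans ?_
    rw [zero_add]
    have e : (JJ.card : ℝ) * (13 * (ε / (13 * (JJ.card + 1)))) = ε * (JJ.card / (JJ.card + 1)) := by
      field_simp
    rw [e]
    have : (JJ.card : ℝ) / (JJ.card + 1) ≤ 1 := by
      rw [div_le_one (by positivity)]; linarith
    nlinarith
  have hnn : ∀ p : K × K, 0 ≤ dd act JJ Φ p.2 p.1 := fun p => dd_nonneg JJ Φ p.2 p.1
  have hae : ∀ᵐ p ∂(μ.prod m), dd act JJ Φ p.2 p.1 = 0 := by
    have h := (integral_eq_zero_iff_of_nonneg hnn hi).mp hzero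
    filter_upwards [h] with p hp
    exact hp
  filter_upwards [hae] with p hpz
  exact dd_zero JJ hpz

/-- V1 for a countable set of parameters -/
theorem V1_count (hK : KD K u) (ha : IAct act) [NormedSpace ℝ V] {Φ : ℝ → K → V} {C : ℝ}
    (hΦ : Fam m C Φ)
    (h1 : ∀ χ : PontryaginDual K, Tor χ → ∫ y, ((χ y : Circle) : ℂ) ∂μ = 1)
    (h0 : ∀ χ : PontryaginDual K, ¬ Tor χ → ∫ y, ((χ y : Circle) : ℂ) ∂μ = 0)
    (hpos : ∀ O : Set K, IsOpen O → (1 : K) ∈ O → 0 < μ O) (hp : SupV m Φ act) (s : ℕ → ℝ) :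
    ∀ᵐ p ∂(μ.prod m), ∃ g : G, ∀ n, Φ (s n) (p.2 * p.1) = act g (Φ (s n) p.2) := by
  classical
  have hN : ∀ N : ℕ, ∀ᵐ p ∂(μ.prod m), ∃ g : G, ∀ t ∈ (Finset.range N).image s,
      Φ t (p.2 * p.1) = act g (Φ t p.2) := fun N => V1 hK ha hΦ h1 h0 hpos hp _
  filter_upwards [ae_all_iff.mpr hN] with p hp
  by_contra hcon
  push Not at hcon
  choose n hn using hcon
  obtain ⟨g, hg⟩ := hp (Finset.univ.sup n + 1)
  refine hn g (hg _ (Finset.mem_image.mpr ⟨n g, Finset.mem_range.mpr ?_, rfl⟩))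
  exact Nat.lt_succ_of_le (Finset.le_sup (Finset.mem_univ g))

end main

end Pool.Agent.S7v
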